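import Pool.Agent.W2helper58.OD.Engine

/-!
# `coNP ⊆ AM` if unique certificates can be refuted
-/

set_option autoImplicit false

namespace Pool.Agent.W2helper58.OD

open Pool.Agent.NPC Pool.Agent.H579R2.Spt Finset

/-- The class `AM` (Arthur sends a random string `r` of length `ℓ |x|`, Merlin answers with a string `w` of length at
most `q |x|`, then Arthur decides in polynomial time), in the form with perfect completeness and error probability at
most `1 / 2 ^ (|x| + 1)`. -/
def InAM (L : Set (List Bool)) : Prop :=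
  ∃ (V : List Bool → List Bool) (ℓ q : Polynomial ℕ), PolyTime V ∧ ∀ x,
    (x ∈ L → ∀ r : List Bool, r.length = ℓ.eval x.length →
      ∃ w : List Bool, w.length ≤ q.eval x.length ∧ V (pairBits x (pairBits r w)) = [true]) ∧
    (x ∉ L → 2 ^ (x.length + 1) * {r : List Bool | r.length = ℓ.eval x.length ∧
      ∃ w : List Bool, w.length ≤ q.eval x.length ∧ V (pairBits x (pairBits r w)) = [true]}.ncard ≤
        2 ^ ℓ.eval x.length)

theorem acc_block {G : List Bool → Bool} {n : ℕ} : ∀ {i : ℕ} {r : List Bool},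
    acc G n i r = true → ∃ j < i, G ((r.drop (j * n)).take n) = true := by
  intro i
  induction i with
  | zero => intro r h; simp [acc] at h
  | succ i ih =>
    intro r h
    simp only [acc, Bool.or_eq_true] at h
    rcases h with h | h
    · exact ⟨0, by omega, by simpa using h⟩
    · obtain ⟨j, hj, h2⟩ := ih h
      refine ⟨j + 1, by omega, ?_⟩
      rw [List.drop_drop] at h2
      have : (j + 1) * n = n + j * n := by ring
      rw [this]
      exact h2

theorem amplify_gen (G : List Bool → Bool) (n a : ℕ) (h : 3 * 2 ^ n ≤ 16 * ∑ r ∈ BL n, ind (G r)) :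
    (2 : ℤ) ^ a * ∑ r ∈ BL (4 * a * n), ind (!acc G n (4 * a) r) ≤ 2 ^ (4 * a * n) := by
  have h1 : 16 * ∑ r ∈ BL n, ind (!G r) ≤ 13 * 2 ^ n := by
    rw [Finset.sum_congr rfl (fun r _ => ind_not (G r)), Finset.sum_sub_distrib]
    have : ∑ r ∈ BL n, (1 : ℤ) = 2 ^ n := by rw [← card_BL]; simp
    rw [this]
    linarith
  have h0 : 0 ≤ ∑ r ∈ BL n, ind (!G r) :=
    Finset.sum_nonneg fun r _ => by simp only [ind]; split_ifs <;> norm_num
  rw [acc_count]
  obtain ⟨S, hS⟩ : ∃ S, S = ∑ r ∈ BL n, ind (!G r) := ⟨_, rfl⟩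
  rw [← hS] at h1 h0 ⊢
  have h2 : 2 * S ^ 4 ≤ (2 ^ n) ^ 4 := by
    have h3 := pow_le_pow_left₀ (by linarith) h1 4
    have h4 : (0 : ℤ) ≤ (2 ^ n) ^ 4 := by positivity
    nlinarith
  have h5 : (2 : ℤ) ^ a * S ^ (4 * a) = (2 * S ^ 4) ^ a := by rw [mul_pow, ← pow_mul]
  have h6 : (2 : ℤ) ^ (4 * a * n) = ((2 ^ n) ^ 4) ^ a := by
    rw [← pow_mul, ← pow_mul]
    congr 1
    ring
  rw [h5, h6]
  exact pow_le_pow_left₀ (by positivity) h2 a

section

variable (V0 : List Bool → List Bool) (p : Polynomial ℕ) (C : List Bool → Crt → Bool)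

/-- the number of random bits of a trial -/
noncomputable def pn : Polynomial ℕ := (p + 2) * (p + 1)

/-- Arthur's test -/
noncomputable def test (x r : List Bool) (τs : List Crt) : Bool :=
  (List.range (4 * (x.length + 1))).all (fun i => (List.range (p.eval x.length + 3)).all (fun k =>
    τs.any (fun τ => C (bits (x, rowsL (p.eval x.length + 1) (min k (p.eval x.length + 3))
      ((r.drop (i * (pn p).eval x.length)).take ((pn p).eval x.length)))) τ)))

theorem test_poly (hC : Poly (fun q : List Bool × Crt => C q.1 q.2)) {α : Type} [TEnc α] {x r : α → List Bool}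
    {τs : α → List Crt} (hx : Poly x) (hr : Poly r) (hτ : Poly τs) :
    Poly (fun a => test p C (x a) (r a) (τs a)) := by
  unfold test
  have u1 : UPoly (fun a => 4 * ((x a).length + 1)) := (UPoly.const 4).mul ((UPoly.length hx).add (UPoly.const 1))
  refine NPC.Poly.all (l := fun a => List.range (4 * ((x a).length + 1))) (p := fun a i =>
    (List.range (p.eval (x a).length + 3)).all (fun k =>
      (τs a).any (fun τ => C (bits (x a, rowsL (p.eval (x a).length + 1) (min k (p.eval (x a).length + 3))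
      (((r a).drop (i * (pn p).eval (x a).length)).take ((pn p).eval (x a).length)))) τ))) u1.range ?_
  have b0 : Poly (fun q : α × ℕ => q.1) := NPC.Poly.fst NPC.Poly.id
  have b1 : Poly (fun q : α × ℕ => x q.1) := hx.comp b0
  refine NPC.Poly.all (l := fun q : α × ℕ => List.range (p.eval (x q.1).length + 3)) (p := fun q k =>
      (τs q.1).any (fun τ => C (bits (x q.1, rowsL (p.eval (x q.1).length + 1) (min k (p.eval (x q.1).length + 3))
      (((r q.1).drop (q.2 * (pn p).eval (x q.1).length)).take ((pn p).eval (x q.1).length)))) τ))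
    (((UPoly.length b1).eval p).add (UPoly.const 3)).range ?_
  have c0 : Poly (fun q : (α × ℕ) × ℕ => q.1.1) := NPC.Poly.fst (NPC.Poly.fst NPC.Poly.id)
  refine NPC.Poly.any (l := fun q : (α × ℕ) × ℕ => τs q.1.1) (p := fun q τ =>
      C (bits (x q.1.1, rowsL (p.eval (x q.1.1).length + 1) (min q.2 (p.eval (x q.1.1).length + 3))
      (((r q.1.1).drop (q.1.2 * (pn p).eval (x q.1.1).length)).take ((pn p).eval (x q.1.1).length)))) τ)
    (hτ.comp c0) ?_
  have d0 : Poly (fun q : ((α × ℕ) × ℕ) × Crt => q.1.1.1) :=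
    NPC.Poly.fst (NPC.Poly.fst (NPC.Poly.fst NPC.Poly.id))
  have d1 : Poly (fun q : ((α × ℕ) × ℕ) × Crt => x q.1.1.1) := hx.comp d0
  have d2 : Poly (fun q : ((α × ℕ) × ℕ) × Crt => r q.1.1.1) := hr.comp d0
  have d3 : Poly (fun q : ((α × ℕ) × ℕ) × Crt => q.1.1.2) := NPC.Poly.snd (NPC.Poly.fst (NPC.Poly.fst NPC.Poly.id))
  have d4 : Poly (fun q : ((α × ℕ) × ℕ) × Crt => q.1.2) := NPC.Poly.snd (NPC.Poly.fst NPC.Poly.id)
  have d5 : Poly (fun q : ((α × ℕ) × ℕ) × Crt => q.2) := NPC.Poly.snd NPC.Poly.id
  have u2 : UPoly (fun q : ((α × ℕ) × ℕ) × Crt => p.eval (x q.1.1.1).length) := (UPoly.length d1).eval p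
  have u3 : Poly (fun q : ((α × ℕ) × ℕ) × Crt => (pn p).eval (x q.1.1.1).length) :=
    ((UPoly.length d1).eval (pn p)).toPoly
  have u4 : UPoly (fun q : ((α × ℕ) × ℕ) × Crt => min q.1.2 (p.eval (x q.1.1.1).length + 3)) :=
    UPoly.of_le (NPC.Poly.min d4 (u2.add (UPoly.const 3)).toPoly) (u2.add (UPoly.const 3))
      (fun _ => min_le_right _ _)
  refine hC.comp (NPC.Poly.pair (bits_poly.comp (NPC.Poly.pair d1 (rowsL_poly (u2.add (UPoly.const 1)).toPoly u4
    ?_))) d5)
  exact take_poly' (drop_poly' d2 (NPC.Poly.mul d3 u3)) u3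

theorem rowsL_sz (m k : ℕ) (r : List Bool) : sz (rowsL m k r) ≤ k * (4 * m + 2) + 1 := by
  refine Ctx.sz_strings_le _ _ _ (by simp [rowsL]) ?_
  intro v hv
  unfold rowsL at hv
  obtain ⟨i, _, rfl⟩ := List.mem_map.1 hv
  rw [List.length_take]
  omega

end

theorem coNP_subset_AM (H : Refutes) {L : Set (List Bool)} (hL : InNP L) : InAM Lᶜ := by
  classical
  obtain ⟨V0, p, hV0, hLV⟩ := hL
  have hL2 : ∀ x, x ∈ L ↔ ∃ w, ver V0 p x w = true := by
    intro x
    rw [hLV x]
    exact exists_congr fun w => ver_iff.symm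
  obtain ⟨C, σ, hC, hσ⟩ := H (fun y => [g1 V0 p y]) (polyTime_of_poly (g1_poly hV0 p)) p
  -- the verifier
  obtain ⟨V, hV⟩ : ∃ V : List Bool → Bool, V = fun y => ((unbits (List Crt) (unpair (unpair y).2).2).map
    (fun τs => test p C (unpair y).1 (unpair (unpair y).2).1 τs)).getD false := ⟨_, rfl⟩
  have hVp : Poly V := by
    rw [hV]
    have e1 : Poly (fun y : List Bool => (unpair y).1) := NPC.Poly.fst poly_unpair
    have e2 : Poly (fun y : List Bool => (unpair y).2) := NPC.Poly.snd poly_unpair
    have e3 : Poly (fun y : List Bool => (unpair (unpair y).2).1) := e1.comp e2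
    have e4 : Poly (fun y : List Bool => (unpair (unpair y).2).2) := e2.comp e2
    refine NPC.Poly.optGetD (NPC.Poly.optMap (o := fun y => unbits (List Crt) (unpair (unpair y).2).2)
      (f := fun y τs => test p C (unpair y).1 (unpair (unpair y).2).1 τs) (poly_unbits.comp e4) ?_)
      (NPC.Poly.const _)
    exact test_poly p C hC (e1.comp (NPC.Poly.fst NPC.Poly.id)) (e3.comp (NPC.Poly.fst NPC.Poly.id))
      (NPC.Poly.snd NPC.Poly.id)
  have hVx : ∀ x r w, V (pairBits x (pairBits r w)) = ((unbits (List Crt) w).map (fun τs => test p C x r τs)).getD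
      false := by
    intro x r w
    rw [hV]
    simp only [unpair_pairBits]
  -- sizes
  obtain ⟨Bx, hBx⟩ : ∃ B : Polynomial ℕ, ∀ n, B.eval n = σ.eval (4 * n + 3 + (p.eval n + 3) * (4 * (p.eval n + 1) + 2)) := by
    refine ⟨σ.comp (Polynomial.C 4 * Polynomial.X + Polynomial.C 3 + (p + Polynomial.C 3) *
      (Polynomial.C 4 * (p + 1) + Polynomial.C 2)), fun n => ?_⟩
    simp [Polynomial.eval_comp]
  obtain ⟨q, hq⟩ : ∃ q : Polynomial ℕ, ∀ n, q.eval n = 4 * (n + 1) * (p.eval n + 3) * (Bx.eval n + 1) + 1 := by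
    refine ⟨Polynomial.C 4 * (Polynomial.X + 1) * (p + Polynomial.C 3) * (Bx + 1) + 1, fun n => ?_⟩
    simp
  obtain ⟨ℓ, hℓ⟩ : ∃ ℓ : Polynomial ℕ, ∀ n, ℓ.eval n = 4 * (n + 1) * (pn p).eval n := by
    refine ⟨Polynomial.C 4 * (Polynomial.X + 1) * pn p, fun n => ?_⟩
    simp
  have epn : ∀ n : ℕ, (pn p).eval n = (p.eval n + 2) * (p.eval n + 1) := by
    intro n
    simp [pn]
  refine ⟨fun y => [V y], ℓ, q, polyTime_of_poly hVp, fun x => ⟨?_, ?_⟩⟩
  · -- completeness
    intro hx r hr
    have hno : ∀ w, ver V0 p x w = false := by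
      intro w
      by_contra h
      exact hx ((hL2 x).2 ⟨w, by simpa using h⟩)
    have hτ : ∀ rows : List (List Bool), ∃ τ, C (bits (x, rows)) τ = true ∧ sz τ ≤ σ.eval (bits (x, rows)).length := by
      intro rows
      refine (hσ (bits (x, rows))).1 fun w => ?_
      by_contra h
      have h2 := (ver_g1 V0 p x rows w).1 (by simpa using h)
      rw [hno w] at h2
      exact absurd h2.1 (by simp)
    choose f hf1 hf2 using hτ
    obtain ⟨rw', hrw⟩ : ∃ g : ℕ → ℕ → List (List Bool), g = fun i k => rowsL (p.eval x.length + 1)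
      (min k (p.eval x.length + 3)) ((r.drop (i * (pn p).eval x.length)).take ((pn p).eval x.length)) := ⟨_, rfl⟩
    obtain ⟨τs, hτs⟩ : ∃ τs : List Crt, τs = (List.range (4 * (x.length + 1))).flatMap (fun i =>
      (List.range (p.eval x.length + 3)).map (fun k => f (rw' i k))) := ⟨_, rfl⟩
    refine ⟨bits τs, ?_, ?_⟩
    · rw [bits_length, hq]
      have h1 : τs.length = 4 * (x.length + 1) * (p.eval x.length + 3) := by
        rw [hτs, List.length_flatMap]
        simp
      have h2 := sz_le_length_mul τs (Bx.eval x.length) (by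
        intro τ hτ
        rw [hτs, List.mem_flatMap] at hτ
        obtain ⟨i, _, hτ⟩ := hτ
        obtain ⟨k, _, rfl⟩ := List.mem_map.1 hτ
        refine (hf2 _).trans ?_
        rw [hBx]
        refine eval_mono σ ?_
        rw [bits_length, sz_pair, hrw]
        have h3 := sz_listBool_le x
        have h4 := rowsL_sz (p.eval x.length + 1) (min k (p.eval x.length + 3))
          ((r.drop (i * (pn p).eval x.length)).take ((pn p).eval x.length))
        have h5 : min k (p.eval x.length + 3) * (4 * (p.eval x.length + 1) + 2) ≤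
            (p.eval x.length + 3) * (4 * (p.eval x.length + 1) + 2) := Nat.mul_le_mul_right _ (min_le_right _ _)
        simp only
        omega)
      rw [h1] at h2
      exact h2
    · change [V (pairBits x (pairBits r (bits τs)))] = [true]
      rw [hVx]
      simp only [unbits_bits, Option.map_some, Option.getD_some, List.cons.injEq, and_true]
      unfold test
      rw [List.all_eq_true]
      intro i hi
      rw [List.all_eq_true]
      intro k hk
      rw [List.any_eq_true]
      refine ⟨f (rw' i k), ?_, ?_⟩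
      · rw [hτs, List.mem_flatMap]
        exact ⟨i, hi, List.mem_map.2 ⟨k, hk, rfl⟩⟩
      · have := hf1 (rw' i k)
        rw [hrw] at this ⊢
        exact this
  · -- soundness
    intro hx
    have hxL : x ∈ L := by simpa using hx
    obtain ⟨m, hm⟩ : ∃ m, m = p.eval x.length + 1 := ⟨_, rfl⟩
    have hfin : {w | ver V0 p x w = true}.Finite := by
      refine (List.finite_length_le Bool (p.eval x.length)).subset fun w hw => ?_
      exact (ver_iff.1 hw).1
    obtain ⟨W, hW⟩ : ∃ W : Finset (List Bool), W = hfin.toFinset := ⟨_, rfl⟩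
    have hWm : ∀ w, w ∈ W ↔ ver V0 p x w = true := fun w => by rw [hW]; simp
    have hWs : ∀ w ∈ W, w.length + 1 ≤ m := fun w hw => by
      have := (ver_iff.1 ((hWm w).1 hw)).1
      omega
    have hW1 : 1 ≤ W.card := by
      obtain ⟨w, hw⟩ := (hL2 x).1 hxL
      exact Finset.card_pos.2 ⟨w, (hWm w).2 hw⟩
    obtain ⟨k, hkm, hk1, hk2⟩ := exists_scale W.card m hW1 (card_short m W hWs)
    obtain ⟨s, hs⟩ : ∃ s, (pn p).eval x.length = k * m + s := by
      refine ⟨(pn p).eval x.length - k * m, ?_⟩
      have : k * m ≤ (pn p).eval x.length := by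
        rw [epn]
        exact Nat.mul_le_mul (by omega) (le_of_eq hm)
      omega
    obtain ⟨G, hG⟩ : ∃ G : List Bool → Bool, ∀ r, G r = true ↔ ∃ w, Iso m k W r w :=
      ⟨fun r => decide (∃ w, Iso m k W r w), fun r => by simp⟩
    have h1 := iso_count m s W hWs k hk1 hk2 G (fun r h => (hG r).2 h)
    rw [← hs] at h1
    have h2 := amplify_gen G ((pn p).eval x.length) (x.length + 1) h1
    rw [sum_ind_eq (4 * (x.length + 1) * (pn p).eval x.length)
      (fun r => !acc G ((pn p).eval x.length) (4 * (x.length + 1)) r)] at h2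
    have h3 : {r : List Bool | r.length = ℓ.eval x.length ∧ ∃ w : List Bool, w.length ≤ q.eval x.length ∧
        [V (pairBits x (pairBits r w))] = [true]} ⊆ {r : List Bool | r.length = 4 * (x.length + 1) * (pn p).eval x.length ∧
          (!acc G ((pn p).eval x.length) (4 * (x.length + 1)) r) = true} := by
      rintro r ⟨hr1, w, _, hr2⟩
      refine ⟨by rw [hr1, hℓ], ?_⟩
      by_contra hacc
      simp only [Bool.not_eq_true', Bool.not_eq_false] at hacc
      obtain ⟨j, hj, h4⟩ := acc_block hacc
      obtain ⟨w0, hw1, hw2, hw3⟩ := (hG _).1 h4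
      rw [hVx] at hr2
      simp only [List.cons.injEq, and_true] at hr2
      cases hu : unbits (List Crt) w with
      | none => rw [hu] at hr2; simp at hr2
      | some τs =>
        rw [hu] at hr2
        simp only [Option.map_some, Option.getD_some] at hr2
        unfold test at hr2
        rw [List.all_eq_true] at hr2
        have h5 := hr2 j (List.mem_range.2 hj)
        rw [List.all_eq_true] at h5
        have h6 := h5 k (List.mem_range.2 (by omega))
        rw [List.any_eq_true] at h6
        obtain ⟨τ, _, h7⟩ := h6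
        rw [min_eq_left (by omega : k ≤ p.eval x.length + 3), ← hm] at h7
        have h8 := (hσ (bits (x, rowsL m k ((r.drop (j * (pn p).eval x.length)).take ((pn p).eval x.length))))).2 w0
          ((ver_g1 V0 p x _ w0).2 ⟨(hWm w0).1 hw1, hw2⟩) (fun w' hw' => by
            have h := (ver_g1 V0 p x _ w').1 hw'
            exact hw3 w' ((hWm w').2 h.1) h.2) τ
        rw [h8] at h7
        exact absurd h7 (by simp)
    have hfin2 : {r : List Bool | r.length = 4 * (x.length + 1) * (pn p).eval x.length ∧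
          (!acc G ((pn p).eval x.length) (4 * (x.length + 1)) r) = true}.Finite :=
      (List.finite_length_eq Bool (4 * (x.length + 1) * (pn p).eval x.length)).subset fun r hr => hr.1
    have h9 := Set.ncard_le_ncard h3 hfin2
    rw [hℓ]
    have h10 : 2 ^ (x.length + 1) * {r : List Bool | r.length = 4 * (x.length + 1) * (pn p).eval x.length ∧
          (!acc G ((pn p).eval x.length) (4 * (x.length + 1)) r) = true}.ncard ≤
        2 ^ (4 * (x.length + 1) * (pn p).eval x.length) := by exact_mod_cast h2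
    refine le_trans (Nat.mul_le_mul_left _ ?_) h10
    rw [hℓ] at h9
    exact h9

end Pool.Agent.W2helper58.OD
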