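import Pool.Agent.W2helper58.OD.Num

/-!
# AND-distillation of an NP-complete language implies `coNP ⊆ AM` and `FewP ⊆ coNP`

Drucker: an AND-distillation of an NP-complete language gives `coNP ⊆ NP/poly`. Here the advice is removed:
`coNP ⊆ AM` (with perfect completeness; `AM ⊆ NP/poly`), so the polynomial hierarchy collapses to `AM`, hence to its
second level; and `FewP` (in particular `UP`) is contained in `coNP`. The same for polynomial-time compressions of
`t(n)` instances of length `n` of an NP-hard language to `O(t(n) log t(n))` bits which determine the AND, with arbitrary
target sets. (For OR the stronger conclusion `NP = coNP` holds, see `NPEqualsCoNP.lean`; the proof there does not apply to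
AND. For the question itself: if `NP = coNP` then an NP-complete language has an OR-distillation if and only if it has an
AND-distillation.)

Proof. Let `x` have at most one certificate `w`. Consider the tree of the prefixes of the certificates and a set `Q` of
nodes of one level. A node `v` gives the NP-question whether there is a certificate without the prefix `v`. For a set
`S ⊆ Q` of `t` nodes let `D(S)` be the compressed instance for these questions. If `Q` is large
then there are `S ≠ S'` with `D(S) = D(S')`, since there are more sets than compressed instances. Then the prefix of `w`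
belongs to both sets or to none of them, so the nodes of the symmetric difference can be removed. In this way all but
polynomially many nodes of each level are removed, and the remaining candidates of the last level can be tested. So a
nondeterministic machine which guesses the pairs `S, S'` refutes the existence of exactly one certificate, whenever there
is no certificate. For languages in `FewP` one applies this to the sets of `1, 2, 3, ...` certificates; for languages in
`NP` Arthur chooses hash functions which isolate a certificate (Valiant and Vazirani; `Pool.Agent.H579R2.Spt.VV`), and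
Merlin refutes the existence of exactly one certificate with hash value `0`, for all of them.
-/

set_option autoImplicit false

namespace Pool.Agent.W2helper58.OD.AndCollapse

open Pool.Agent.NPC

/-- `R` is NP-complete. -/
def NPComplete (R : Set (List Bool)) : Prop := InNP R ∧ NPHard R

/-- `D` is an AND-distillation algorithm for `R`. The sequence `l = (x₁, …, x_m)` is given by its code `bits l`, whose
length is at least `m` and at least each `|x_i|`, and at most `(4 max |x_i| + 2) m + 1`; so polynomial time in this length
is the same as a number of steps polynomial in `m` and `max |x_i|`. -/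
structure ANDDistillation (R : Set (List Bool)) (D : List (List Bool) → List Bool) : Prop where
  poly : ∃ F : List Bool → List Bool, PolyTime F ∧ ∀ l, F (bits l) = D l
  short : ∃ q : Polynomial ℕ, ∀ (n : ℕ) (l : List (List Bool)), l ≠ [] → (∀ x ∈ l, x.length ≤ n) →
    (D l).length ≤ q.eval n
  correct : ∀ l ≠ [], (D l ∈ R ↔ ∀ x ∈ l, x ∈ R)

/-- The AND of `t n` instances of `L` of length at most `n` can be compressed to `s n` bits: a polynomial-time function
`F` maps each list `l` of `t n` strings of length at most `n` (given together with `n` in unary) to at most `s n` bits, and
for some set `T n` of strings this is an element of `T n` if and only if all elements of `l` are in `L`. -/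
def ANDCompression (L : Set (List Bool)) (t : Polynomial ℕ) (s : ℕ → ℕ) : Prop :=
  ∃ (F : List Bool → List Bool) (T : ℕ → Set (List Bool)), PolyTime F ∧ ∀ (n : ℕ) (l : List (List Bool)),
    l.length = t.eval n → (∀ x ∈ l, x.length ≤ n) →
      (F (bits (List.replicate n true, l))).length ≤ s n ∧
        (F (bits (List.replicate n true, l)) ∈ T n ↔ ∀ x ∈ l, x ∈ L)

/-- The class `AM`, with perfect completeness: Arthur sends a random string `r` of length `ℓ |x|`, Merlin answers with a
string `w` of length at most `q |x|`, and Arthur decides in polynomial time. If `x ∈ L` then for every `r` there is an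
answer which is accepted; if `x ∉ L` then there is one for at most a `1 / 2 ^ (|x| + 1)` part of the `r`. -/
def InAM (L : Set (List Bool)) : Prop :=
  ∃ (V : List Bool → List Bool) (ℓ q : Polynomial ℕ), PolyTime V ∧ ∀ x,
    (x ∈ L → ∀ r : List Bool, r.length = ℓ.eval x.length →
      ∃ w : List Bool, w.length ≤ q.eval x.length ∧ V (pairBits x (pairBits r w)) = [true]) ∧
    (x ∉ L → 2 ^ (x.length + 1) * {r : List Bool | r.length = ℓ.eval x.length ∧
      ∃ w : List Bool, w.length ≤ q.eval x.length ∧ V (pairBits x (pairBits r w)) = [true]}.ncard ≤
        2 ^ ℓ.eval x.length)

/-- The class `FewP`: there is a verifier in polynomial time which accepts at most polynomially many certificates. -/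
def InFewP (L : Set (List Bool)) : Prop :=
  ∃ (V : List Bool → List Bool) (p s : Polynomial ℕ), PolyTime V ∧ ∀ x,
    (x ∈ L ↔ ∃ w : List Bool, w.length ≤ p.eval x.length ∧ V (pairBits x w) = [true]) ∧
    {w : List Bool | w.length ≤ p.eval x.length ∧ V (pairBits x w) = [true]}.ncard ≤ s.eval x.length

/-- `coNP ⊆ AM` and `FewP ⊆ coNP`. -/
def Collapse : Prop := (∀ L, InCoNP L → InAM L) ∧ ∀ L, InFewP L → InCoNP L

theorem collapse_of_refutes (h : Pool.Agent.W2helper58.OD.Refutes) : Collapse := by
  refine ⟨fun L hL => ?_, fun L hL => Pool.Agent.W2helper58.OD.fewP_subset_coNP h hL⟩
  have h1 : Pool.Agent.W2helper58.OD.InAM Lᶜᶜ := Pool.Agent.W2helper58.OD.coNP_subset_AM h hL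
  rw [compl_compl] at h1
  exact h1

/-- If some NP-complete language has an AND-distillation, then `coNP ⊆ AM` and `FewP ⊆ coNP`. The same if, for some
NP-hard language `L`, some polynomial `t ≥ 2` and some constant `c`, the AND of `t n` instances of length at most `n` of
`L` can be compressed to `c * t n * log₂ (t n)` bits. -/
theorem result :
    ((∃ R D, NPComplete R ∧ ANDDistillation R D) → Collapse) ∧
    ∀ (L : Set (List Bool)) (t : Polynomial ℕ) (s : ℕ → ℕ) (c : ℕ), NPHard L → (∀ n, 2 ≤ t.eval n) →
      (∀ n, s n ≤ c * (t.eval n * Nat.log 2 (t.eval n))) → ANDCompression L t s → Collapse := by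
  refine ⟨?_, ?_⟩
  · rintro ⟨R, D, hR, hD⟩
    obtain ⟨q, hq⟩ := hD.short
    exact collapse_of_refutes
      (Pool.Agent.W2helper58.OD.refutes_of_distillation (b := true) hR.2 hD.poly hq hD.correct)
  · intro L t s c hL ht hs h
    exact collapse_of_refutes (Pool.Agent.W2helper58.OD.refutes_of_log (b := true) hL ht c hs h)

end Pool.Agent.W2helper58.OD.AndCollapse
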