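import Pool.Agent.W2helper58.OD.Pfx

/-!
# The checker of the refutations of unique certificates
-/

set_option autoImplicit false

namespace Pool.Agent.W2helper58.OD

open Pool.Agent.NPC Pool.Agent.H579R2.Spt

theorem mem_poly {α : Type} [TEnc α] {f : α → List Bool} {l : α → List (List Bool)} (hf : Poly f) (hl : Poly l) :
    Poly (fun a => decide (f a ∈ l a)) :=
  (NPC.Poly.decide_mem hf hl).congr fun a => by
    rw [decide_eq_decide]

/-- the data of the construction: the connective (`false` for OR, `true` for AND), the verifier, the bound for the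
certificates, the reduction to the compressed language, the compression, the bound for the lengths of the instances,
the number of the instances which are compressed -/
structure Ctx where
  b : Bool
  V0 : List Bool → List Bool
  p : Polynomial ℕ
  g : List Bool → List Bool
  F : List Bool → List Bool
  N : Polynomial ℕ
  t : Polynomial ℕ

/-- a refutation: the nodes which are alive, and the pairs of sets of nodes with the same code -/
abbrev Crt : Type := List (List Bool) × List (List (List Bool) × List (List Bool))

namespace Ctx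

/-- the compressed instance for a set of nodes -/
def code (c : Ctx) (x : List Bool) (S : List (List Bool)) : List Bool :=
  c.F (bits (List.replicate (c.N.eval x.length) true, S.map (fun v => c.g (bits (x, v)))))

/-- the lists of nodes of length `k` have the right number of elements and the same code -/
def valid (c : Ctx) (x : List Bool) (S S' : List (List Bool)) (k : ℕ) : Bool :=
  decide (S.length = c.t.eval (c.N.eval x.length)) && (decide (S'.length = c.t.eval (c.N.eval x.length)) &&
    ((S ++ S').all (fun v => decide (v.length = k)) && decide (c.code x S = c.code x S')))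

/-- the node `v` is excluded by one of the pairs -/
def excl (c : Ctx) (x : List Bool) (E : List (List (List Bool) × List (List Bool))) (v : List Bool) : Bool :=
  E.any (fun e => c.valid x e.1 e.2 v.length && (decide (v ∈ e.1) ^^ decide (v ∈ e.2)))

/-- the checker -/
def chk (c : Ctx) (x : List Bool) (τ : Crt) : Bool :=
  decide ([] ∈ τ.1) && τ.1.all (fun u => if c.p.eval x.length + 1 ≤ u.length then
    (List.range (u.length + 1)).all (fun j => !ver c.V0 c.p x (u.take j)) else
    (decide (u ++ [false] ∈ τ.1) || c.excl x τ.2 (u ++ [false])) &&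
      (decide (u ++ [true] ∈ τ.1) || c.excl x τ.2 (u ++ [true])))

theorem code_poly (c : Ctx) (hg : PolyTime c.g) (hF : PolyTime c.F) {α : Type} [TEnc α] {x : α → List Bool}
    {S : α → List (List Bool)} (hx : Poly x) (hS : Poly S) : Poly (fun a => c.code (x a) (S a)) := by
  have hg' : Poly c.g := PIso.poly_iff.2 hg
  have hF' : Poly c.F := PIso.poly_iff.2 hF
  unfold code
  have h1 : Poly (fun a => (List.replicate (c.N.eval (x a).length) ()).map (fun _ => true)) := by
    refine NPC.Poly.map (l := fun a => List.replicate (c.N.eval (x a).length) ()) (F := fun _ _ => true) ?_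
      (NPC.Poly.const _)
    exact (UPoly.length hx).eval c.N
  have h2 : Poly (fun a => List.replicate (c.N.eval (x a).length) true) := h1.congr fun a => by simp
  have h3 : Poly (fun a => (S a).map (fun v => c.g (bits (x a, v)))) := by
    refine NPC.Poly.map (l := S) (F := fun a v => c.g (bits (x a, v))) hS ?_
    exact hg'.comp (bits_poly.comp (NPC.Poly.pair (hx.comp (NPC.Poly.fst NPC.Poly.id)) (NPC.Poly.snd NPC.Poly.id)))
  exact hF'.comp (bits_poly.comp (NPC.Poly.pair h2 h3))

theorem valid_poly (c : Ctx) (hg : PolyTime c.g) (hF : PolyTime c.F) {α : Type} [TEnc α] {x : α → List Bool}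
    {S S' : α → List (List Bool)} {k : α → ℕ} (hx : Poly x) (hS : Poly S) (hS' : Poly S') (hk : Poly k) :
    Poly (fun a => c.valid (x a) (S a) (S' a) (k a)) := by
  unfold valid
  have ht : Poly (fun a => c.t.eval (c.N.eval (x a).length)) :=
    ((((UPoly.length hx).eval c.N)).eval c.t).toPoly
  refine NPC.Poly.and (NPC.Poly.decide_eq (NPC.Poly.length hS) ht)
    (NPC.Poly.and (NPC.Poly.decide_eq (NPC.Poly.length hS') ht) (NPC.Poly.and ?_ ?_))
  · refine NPC.Poly.all (l := fun a => S a ++ S' a) (p := fun a v => decide (v.length = k a))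
      (NPC.Poly.append hS hS') ?_
    exact NPC.Poly.decide_eq (NPC.Poly.length (NPC.Poly.snd NPC.Poly.id)) (hk.comp (NPC.Poly.fst NPC.Poly.id))
  · exact NPC.Poly.decide_eq (c.code_poly hg hF hx hS) (c.code_poly hg hF hx hS')

theorem excl_poly (c : Ctx) (hg : PolyTime c.g) (hF : PolyTime c.F) {α : Type} [TEnc α] {x : α → List Bool}
    {E : α → List (List (List Bool) × List (List Bool))} {v : α → List Bool} (hx : Poly x) (hE : Poly E)
    (hv : Poly v) : Poly (fun a => c.excl (x a) (E a) (v a)) := by
  unfold excl
  refine NPC.Poly.any (l := E) (p := fun a e => c.valid (x a) e.1 e.2 (v a).length &&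
    (decide (v a ∈ e.1) ^^ decide (v a ∈ e.2))) hE ?_
  have a1 : Poly (fun q : α × (List (List Bool) × List (List Bool)) => x q.1) := hx.comp (NPC.Poly.fst NPC.Poly.id)
  have a2 : Poly (fun q : α × (List (List Bool) × List (List Bool)) => v q.1) := hv.comp (NPC.Poly.fst NPC.Poly.id)
  have a3 : Poly (fun q : α × (List (List Bool) × List (List Bool)) => q.2.1) :=
    NPC.Poly.fst (NPC.Poly.snd NPC.Poly.id)
  have a4 : Poly (fun q : α × (List (List Bool) × List (List Bool)) => q.2.2) :=
    NPC.Poly.snd (NPC.Poly.snd NPC.Poly.id)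
  exact NPC.Poly.and (c.valid_poly hg hF a1 a3 a4 (NPC.Poly.length a2))
    (NPC.Poly.xor (mem_poly a2 a3) (mem_poly a2 a4))

theorem chk_poly (c : Ctx) (hV : PolyTime c.V0) (hg : PolyTime c.g) (hF : PolyTime c.F) {α : Type} [TEnc α]
    {x : α → List Bool} {τ : α → Crt} (hx : Poly x) (hτ : Poly τ) : Poly (fun a => c.chk (x a) (τ a)) := by
  unfold chk
  have t1 : Poly (fun a => (τ a).1) := NPC.Poly.fst hτ
  have t2 : Poly (fun a => (τ a).2) := NPC.Poly.snd hτ
  refine NPC.Poly.and (mem_poly (NPC.Poly.const _) t1) ?_
  refine NPC.Poly.all (l := fun a => (τ a).1) (p := fun a u => if c.p.eval (x a).length + 1 ≤ u.length then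
    (List.range (u.length + 1)).all (fun j => !ver c.V0 c.p (x a) (u.take j)) else
    (decide (u ++ [false] ∈ (τ a).1) || c.excl (x a) (τ a).2 (u ++ [false])) &&
      (decide (u ++ [true] ∈ (τ a).1) || c.excl (x a) (τ a).2 (u ++ [true]))) t1 ?_
  have b0 : Poly (fun q : α × List Bool => q.1) := NPC.Poly.fst NPC.Poly.id
  have b1 : Poly (fun q : α × List Bool => x q.1) := hx.comp b0
  have b2 : Poly (fun q : α × List Bool => q.2) := NPC.Poly.snd NPC.Poly.id
  have b3 : Poly (fun q : α × List Bool => (τ q.1).1) := t1.comp b0
  have b4 : Poly (fun q : α × List Bool => (τ q.1).2) := t2.comp b0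
  have b5 : ∀ bb : Bool, Poly (fun q : α × List Bool => q.2 ++ [bb]) := fun bb =>
    NPC.Poly.append b2 (NPC.Poly.const _)
  have b6 : Poly (fun q : α × List Bool => c.p.eval (x q.1).length + 1) :=
    (((UPoly.length b1).eval c.p).add (UPoly.const 1)).toPoly
  refine NPC.Poly.ite (NPC.Poly.decide_le b6 (NPC.Poly.length b2)) ?_ ?_
  · have b7 : Poly (fun q : α × List Bool => List.range (q.2.length + 1)) :=
      ((UPoly.length b2).add (UPoly.const 1)).range
    refine NPC.Poly.all (l := fun q : α × List Bool => List.range (q.2.length + 1))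
      (p := fun q j => !ver c.V0 c.p (x q.1) (q.2.take j)) b7 ?_
    refine NPC.Poly.not ((ver_poly hV c.p).comp (NPC.Poly.pair (b1.comp (NPC.Poly.fst NPC.Poly.id)) ?_))
    exact take_poly' (b2.comp (NPC.Poly.fst NPC.Poly.id)) (NPC.Poly.snd NPC.Poly.id)
  · exact NPC.Poly.and (NPC.Poly.or (mem_poly (b5 false) b3) (c.excl_poly hg hF b1 b4 (b5 false)))
      (NPC.Poly.or (mem_poly (b5 true) b3) (c.excl_poly hg hF b1 b4 (b5 true)))

end Ctx

end Pool.Agent.W2helper58.OD
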