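import Pool.Agent.W2helper58.OD.Sound

/-!
# Completeness of the checker: refutations exist if there is no certificate
-/

set_option autoImplicit false

namespace Pool.Agent.W2helper58.OD

open Pool.Agent.NPC Pool.Agent.H579R2.Spt Finset

theorem card_le_short (W : Finset (List Bool)) (s : ℕ) (hW : ∀ w ∈ W, w.length ≤ s) : W.card ≤ 2 ^ (s + 1) :=
  card_short (s + 1) W (fun w hw => by have := hW w hw; omega)

/-- pruning a set of nodes of length `k` -/
theorem prune (code : List (List Bool) → List Bool) (k t s M : ℕ) (hM : 2 ^ (s + 1) < M.choose t)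
    (hcode : ∀ S : List (List Bool), S.length = t → (∀ v ∈ S, v.length = k) → (code S).length ≤ s) :
    ∀ (q : ℕ) (Q : Finset (List Bool)), Q.card = q → (∀ v ∈ Q, v.length = k) →
    ∃ P ⊆ Q, P.card < M ∧ ∃ E : List (List (List Bool) × List (List Bool)), E.length ≤ q ∧
      (∀ e ∈ E, e.1.length = t ∧ e.2.length = t ∧ (∀ v ∈ e.1, v.length = k) ∧ (∀ v ∈ e.2, v.length = k) ∧
        code e.1 = code e.2) ∧
      ∀ v ∈ Q, v ∉ P → ∃ e ∈ E, (decide (v ∈ e.1) ^^ decide (v ∈ e.2)) = true := by
  classical
  intro q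
  induction q with
  | zero =>
    intro Q hQ _
    refine ⟨Q, subset_rfl, ?_, [], le_rfl, by simp, fun v hv hv' => absurd hv hv'⟩
    rw [hQ]
    by_contra h0
    have : M = 0 := by omega
    rw [this] at hM
    have h1 : Nat.choose 0 t ≤ 1 := by cases t <;> simp
    have h2 : 1 ≤ 2 ^ (s + 1) := Nat.one_le_two_pow
    omega
  | succ q ih =>
    intro Q hQ hk
    by_cases hlt : Q.card < M
    · exact ⟨Q, subset_rfl, hlt, [], Nat.zero_le _, by simp, fun v hv hv' => absurd hv hv'⟩
    · push Not at hlt
      have hsub : ∀ S ∈ Q.powersetCard t, S.toList.length = t ∧ ∀ v ∈ S.toList, v.length = k := by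
        intro S hS
        rw [mem_powersetCard] at hS
        refine ⟨by rw [Finset.length_toList]; exact hS.2, fun v hv => hk v (hS.1 (Finset.mem_toList.1 hv))⟩
      have hcard : ((Q.powersetCard t).image (fun S => code S.toList)).card < (Q.powersetCard t).card := by
        have h1 := card_le_short ((Q.powersetCard t).image (fun S => code S.toList)) s (by
          intro w hw
          obtain ⟨S, hS, rfl⟩ := Finset.mem_image.1 hw
          exact hcode _ (hsub S hS).1 (hsub S hS).2)
        rw [card_powersetCard]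
        have h2 : M.choose t ≤ Q.card.choose t := Nat.choose_le_choose t hlt
        omega
      obtain ⟨S, hS, S', hS', hne, heq⟩ := Finset.exists_ne_map_eq_of_card_lt_of_maps_to hcard
        (f := fun S => code S.toList) (fun S hS => Finset.mem_coe.2 (Finset.mem_image_of_mem _ hS))
      have hdiff : ∃ v ∈ Q, (decide (v ∈ S.toList) ^^ decide (v ∈ S'.toList)) = true := by
        by_contra hno
        push Not at hno
        apply hne
        ext v
        have hS1 := (mem_powersetCard.1 hS).1
        have hS2 := (mem_powersetCard.1 hS').1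
        by_cases hvQ : v ∈ Q
        · have := hno v hvQ
          simp only [Finset.mem_toList] at this
          by_cases e1 : v ∈ S <;> by_cases e2 : v ∈ S' <;> simp [e1, e2] at this ⊢
        · exact ⟨fun h => absurd (hS1 h) hvQ, fun h => absurd (hS2 h) hvQ⟩
      obtain ⟨v₀, hv₀, hv₀2⟩ := hdiff
      obtain ⟨P, hP, hPc, E, hE1, hE2, hE3⟩ := ih (Q.erase v₀) (by rw [card_erase_of_mem hv₀, hQ]; rfl)
        (fun v hv => hk v (Finset.mem_of_mem_erase hv))
      refine ⟨P, hP.trans (Finset.erase_subset _ _), hPc, (S.toList, S'.toList) :: E, by simpa using hE1, ?_, ?_⟩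
      · intro e he
        rcases List.mem_cons.1 he with rfl | he
        · exact ⟨(hsub S hS).1, (hsub S' hS').1, (hsub S hS).2, (hsub S' hS').2, heq⟩
        · exact hE2 e he
      · intro v hv hvP
        by_cases hvv : v = v₀
        · rw [hvv]
          exact ⟨_, List.mem_cons_self, hv₀2⟩
        · obtain ⟨e, he, he2⟩ := hE3 v (Finset.mem_erase.2 ⟨hvv, hv⟩) hvP
          exact ⟨e, List.mem_cons_of_mem _ he, he2⟩

namespace Ctx

variable {c : Ctx}

theorem excl_mono (x : List Bool) {E E' : List (List (List Bool) × List (List Bool))} (h : ∀ e ∈ E, e ∈ E')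
    {v : List Bool} (hv : c.excl x E v = true) : c.excl x E' v = true := by
  unfold excl at hv ⊢
  rw [List.any_eq_true] at hv ⊢
  obtain ⟨e, he, h2⟩ := hv
  exact ⟨e, h e he, h2⟩

/-- the levels of the tree -/
theorem levels (x : List Bool) (s M : ℕ) (hM : 2 ^ (s + 1) < M.choose (c.t.eval (c.N.eval x.length)))
    (hcode : ∀ S : List (List Bool), S.length = c.t.eval (c.N.eval x.length) →
      (∀ v ∈ S, v.length ≤ c.p.eval x.length + 1) → (c.code x S).length ≤ s) :
    ∀ k, k ≤ c.p.eval x.length + 1 → ∃ (A : Finset (List Bool)) (P : Finset (List Bool))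
      (E : List (List (List Bool) × List (List Bool))),
      [] ∈ A ∧ (∀ u ∈ A, u.length ≤ k) ∧ P ⊆ A ∧ (∀ u ∈ A, u.length = k → u ∈ P) ∧ P.card < M ∧
      (∀ u ∈ P, u.length = k) ∧
      (∀ u ∈ A, u.length < k → ∀ bb : Bool, u ++ [bb] ∈ A ∨ c.excl x E (u ++ [bb]) = true) ∧
      A.card ≤ (k + 1) * M ∧ E.length ≤ k * (2 * M) ∧
      ∀ e ∈ E, e.1.length = c.t.eval (c.N.eval x.length) ∧ e.2.length = c.t.eval (c.N.eval x.length) ∧
        (∀ v ∈ e.1, v.length ≤ k) ∧ (∀ v ∈ e.2, v.length ≤ k) := by
  classical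
  have hM1 : 1 < M := by
    by_contra h0
    have h1 : M.choose (c.t.eval (c.N.eval x.length)) ≤ 1 := by
      have h3 : M = 0 ∨ M = 1 := by omega
      rcases h3 with rfl | rfl
      · cases c.t.eval (c.N.eval x.length) <;> simp
      · rcases c.t.eval (c.N.eval x.length) with _ | _ | n
        · simp
        · simp
        · rw [Nat.choose_eq_zero_of_lt (by omega)]
          omega
    have h2 : 1 ≤ 2 ^ (s + 1) := Nat.one_le_two_pow
    omega
  intro k
  induction k with
  | zero =>
    intro _
    refine ⟨{[]}, {[]}, [], by simp, by simp, subset_rfl, by simp, by simpa using hM1, by simp, ?_, ?_, by simp,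
      by simp⟩
    · intro u _ h; omega
    · simp only [Finset.card_singleton]
      omega
  | succ k ih =>
    intro hk
    obtain ⟨A, P, E, a1, a2, a3, a4, a5, a6, a7, a8, a9, a10⟩ := ih (by omega)
    -- children
    obtain ⟨Q, hQ⟩ : ∃ Q, Q = P.image (fun u => u ++ [false]) ∪ P.image (fun u => u ++ [true]) := ⟨_, rfl⟩
    have hQk : ∀ v ∈ Q, v.length = k + 1 := by
      intro v hv
      rw [hQ, Finset.mem_union, Finset.mem_image, Finset.mem_image] at hv
      rcases hv with ⟨u, hu, rfl⟩ | ⟨u, hu, rfl⟩ <;> simp [a6 u hu]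
    have hQc : Q.card ≤ 2 * M := by
      rw [hQ]
      refine (Finset.card_union_le _ _).trans ?_
      have h1 := Finset.card_image_le (s := P) (f := fun u => u ++ [false])
      have h2 := Finset.card_image_le (s := P) (f := fun u => u ++ [true])
      omega
    obtain ⟨P', b1, b2, E', b3, b4, b5⟩ := prune (c.code x) (k + 1) (c.t.eval (c.N.eval x.length)) s M hM
      (fun S h1 h2 => hcode S h1 (fun v hv => by rw [h2 v hv]; exact hk)) Q.card Q rfl hQk
    have hex : ∀ v ∈ Q, v ∉ P' → c.excl x (E ++ E') v = true := by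
      intro v hv hvP
      obtain ⟨e, he, he2⟩ := b5 v hv hvP
      obtain ⟨c1, c2, c3, c4, c5⟩ := b4 e he
      unfold excl
      rw [List.any_eq_true]
      refine ⟨e, List.mem_append_right _ he, ?_⟩
      rw [Bool.and_eq_true]
      refine ⟨?_, he2⟩
      unfold valid
      simp only [Bool.and_eq_true, decide_eq_true_eq, List.all_eq_true, List.mem_append]
      refine ⟨c1, c2, ?_, c5⟩
      rintro u (hu | hu)
      · rw [c3 u hu, hQk v hv]
      · rw [c4 u hu, hQk v hv]
    have hA' : ∀ u ∈ A ∪ P', u.length ≤ k + 1 := by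
      intro u hu
      rcases Finset.mem_union.1 hu with h | h
      · exact (a2 u h).trans (by omega)
      · exact (hQk u (b1 h)).le
    refine ⟨A ∪ P', P', E ++ E', Finset.mem_union_left _ a1, hA', Finset.subset_union_right, ?_, b2,
      fun u hu => hQk u (b1 hu), ?_, ?_, ?_, ?_⟩
    · intro u hu hl
      rcases Finset.mem_union.1 hu with h | h
      · have := a2 u h; omega
      · exact h
    · intro u hu hl bb
      have huA : u ∈ A := by
        rcases Finset.mem_union.1 hu with h | h
        · exact h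
        · have := hQk u (b1 h); omega
      by_cases hlk : u.length < k
      · rcases a7 u huA hlk bb with h | h
        · exact Or.inl (Finset.mem_union_left _ h)
        · exact Or.inr (excl_mono x (fun e he => List.mem_append_left _ he) h)
      · have huP : u ∈ P := a4 u huA (by omega)
        have huQ : u ++ [bb] ∈ Q := by
          rw [hQ]
          cases bb
          · exact Finset.mem_union_left _ (Finset.mem_image_of_mem _ huP)
          · exact Finset.mem_union_right _ (Finset.mem_image_of_mem _ huP)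
        by_cases hP' : u ++ [bb] ∈ P'
        · exact Or.inl (Finset.mem_union_right _ hP')
        · exact Or.inr (hex _ huQ hP')
    · refine (Finset.card_union_le _ _).trans ?_
      have : (k + 1 + 1) * M = (k + 1) * M + M := by ring
      omega
    · rw [List.length_append]
      have : (k + 1) * (2 * M) = k * (2 * M) + 2 * M := by ring
      omega
    · intro e he
      rcases List.mem_append.1 he with h | h
      · obtain ⟨c1, c2, c3, c4⟩ := a10 e h
        exact ⟨c1, c2, fun v hv => (c3 v hv).trans (by omega), fun v hv => (c4 v hv).trans (by omega)⟩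
      · obtain ⟨c1, c2, c3, c4, c5⟩ := b4 e h
        exact ⟨c1, c2, fun v hv => (c3 v hv).le, fun v hv => (c4 v hv).le⟩

theorem sz_strings_le (S : List (List Bool)) (t k : ℕ) (h1 : S.length ≤ t) (h2 : ∀ v ∈ S, v.length ≤ k) :
    sz S ≤ t * (4 * k + 2) + 1 := by
  have h3 := sz_le_length_mul S (4 * k + 1) (by
    intro a ha
    have h4 := sz_listBool_le a
    have h5 := h2 a ha
    omega)
  have h6 : S.length * (4 * k + 1 + 1) ≤ t * (4 * k + 2) := Nat.mul_le_mul h1 (by omega)
  omega

theorem sz_crt_le (A : List (List Bool)) (E : List (List (List Bool) × List (List Bool))) (m t M : ℕ)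
    (a2 : ∀ u ∈ A, u.length ≤ m) (a8 : A.length ≤ (m + 1) * M) (a9 : E.length ≤ m * (2 * M))
    (a10 : ∀ e ∈ E, e.1.length = t ∧ e.2.length = t ∧ (∀ v ∈ e.1, v.length ≤ m) ∧ (∀ v ∈ e.2, v.length ≤ m)) :
    sz (A, E) ≤ 16 * ((m + 2) * (M + 1) * (t + 2) * (4 * m + 2)) := by
  rw [sz_pair]
  have h1 := sz_strings_le A ((m + 1) * M) m a8 a2
  have h2 := sz_le_length_mul E (2 * (t * (4 * m + 2) + 1) + 1) (by
    intro e he
    obtain ⟨c1, c2, c3, c4⟩ := a10 e he
    have g1 := sz_strings_le e.1 t m c1.le c3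
    have g2 := sz_strings_le e.2 t m c2.le c4
    have g3 : sz e = sz e.1 + sz e.2 + 1 := by
      obtain ⟨e1, e2⟩ := e
      rw [sz_pair]
    omega)
  have h3 : E.length * (2 * (t * (4 * m + 2) + 1) + 1 + 1) ≤ m * (2 * M) * (2 * (t * (4 * m + 2) + 1) + 1 + 1) :=
    Nat.mul_le_mul_right _ a9
  have key : (m + 1) * M * (4 * m + 2) + 1 + (m * (2 * M) * (2 * (t * (4 * m + 2) + 1) + 1 + 1) + 1) + 1 ≤
      16 * ((m + 2) * (M + 1) * (t + 2) * (4 * m + 2)) := by
    obtain ⟨B, hB⟩ : ∃ B, B = 4 * m + 2 := ⟨_, rfl⟩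
    rw [← hB]
    have hB2 : 2 ≤ B := by omega
    have k1 : (m + 1) * M * B ≤ (m + 2) * (M + 1) * (t + 2) * B := by
      have k0 : (m + 1) * M ≤ (m + 2) * (M + 1) := Nat.mul_le_mul (by omega) (by omega)
      have k00 : (m + 1) * M ≤ (m + 2) * (M + 1) * (t + 2) := k0.trans (Nat.le_mul_of_pos_right _ (by omega))
      exact Nat.mul_le_mul_right _ k00
    have k2 : m * (2 * M) * (2 * (t * B + 1) + 1 + 1) ≤ 8 * ((m + 2) * (M + 1) * (t + 2) * B) := by
      have k3 : 2 * (t * B + 1) + 1 + 1 ≤ 4 * ((t + 2) * B) := by nlinarith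
      have k4 : m * (2 * M) ≤ 2 * ((m + 2) * (M + 1)) := by nlinarith
      calc m * (2 * M) * (2 * (t * B + 1) + 1 + 1) ≤ (2 * ((m + 2) * (M + 1))) * (4 * ((t + 2) * B)) :=
            Nat.mul_le_mul k4 k3
        _ = _ := by ring
    have k5 : 1 ≤ (m + 2) * (M + 1) * (t + 2) * B := by
      have : 0 < (m + 2) * (M + 1) * (t + 2) * B := by positivity
      omega
    omega
  omega

/-- **Completeness.** -/
theorem complete (x : List Bool) (s M : ℕ) (hM : 2 ^ (s + 1) < M.choose (c.t.eval (c.N.eval x.length)))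
    (hcode : ∀ S : List (List Bool), S.length = c.t.eval (c.N.eval x.length) →
      (∀ v ∈ S, v.length ≤ c.p.eval x.length + 1) → (c.code x S).length ≤ s)
    (hno : ∀ w, ver c.V0 c.p x w = false) :
    ∃ τ : Crt, c.chk x τ = true ∧ sz τ ≤ 16 * ((c.p.eval x.length + 1 + 2) * (M + 1) *
      (c.t.eval (c.N.eval x.length) + 2) * (4 * (c.p.eval x.length + 1) + 2)) := by
  classical
  obtain ⟨A, P, E, a1, a2, a3, a4, a5, a6, a7, a8, a9, a10⟩ := levels (c := c) x s M hM hcode
    (c.p.eval x.length + 1) le_rfl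
  refine ⟨(A.toList, E), ?_, ?_⟩
  · unfold chk
    rw [Bool.and_eq_true, decide_eq_true_eq, List.all_eq_true]
    refine ⟨Finset.mem_toList.2 a1, ?_⟩
    intro u hu
    have huA := Finset.mem_toList.1 hu
    split_ifs with h1
    · rw [List.all_eq_true]
      intro j _
      rw [hno]; rfl
    · rw [Bool.and_eq_true, Bool.or_eq_true, Bool.or_eq_true, decide_eq_true_eq, decide_eq_true_eq,
        Finset.mem_toList, Finset.mem_toList]
      exact ⟨a7 u huA (by omega) false, a7 u huA (by omega) true⟩
  · exact sz_crt_le A.toList E _ _ M (fun v hv => a2 v (Finset.mem_toList.1 hv))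
      (by rw [Finset.length_toList]; exact a8) a9 a10

end Ctx

end Pool.Agent.W2helper58.OD
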