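import Mathlib

/-!
# Few codes whose tuples cover a set
-/

set_option autoImplicit false

namespace Pool.Agent.W2helper58.OD

open Finset

/-- there are few tuples of elements of `G` such that every element of `G` belongs to a tuple of elements of `G` with
the same code as one of them -/
theorem cover {X Y : Type} [DecidableEq X] [DecidableEq Y] (t : ℕ) (ht : 1 ≤ t) (code : (Fin t → X) → Y) (a N : ℕ)
    (haN : N ≤ a ^ t) (ha : 1 ≤ a) :
    ∀ (j : ℕ) (G : Finset X), (∀ H ⊆ G, ((Fintype.piFinset (fun _ : Fin t => H)).image code).card ≤ N) →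
      G.card * (a - 1) ^ j < a ^ j →
      ∃ E : List (Fin t → X), E.length ≤ j ∧ (∀ f ∈ E, ∀ i, f i ∈ G) ∧
        ∀ g ∈ G, ∃ f : Fin t → X, (∀ i, f i ∈ G) ∧ (∃ i, f i = g) ∧ ∃ f' ∈ E, code f = code f' := by
  classical
  intro j
  induction j with
  | zero =>
    intro G _ hG
    simp only [pow_zero, mul_one] at hG
    have hG0 : G = ∅ := by
      rw [← Finset.card_eq_zero]; omega
    exact ⟨[], le_rfl, by simp, by rw [hG0]; simp⟩
  | succ j ih =>
    intro G hN hG
    by_cases hG0 : G = ∅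
    · exact ⟨[], Nat.zero_le _, by simp, by rw [hG0]; simp⟩
    obtain ⟨P, hP⟩ : ∃ P, P = Fintype.piFinset (fun _ : Fin t => G) := ⟨_, rfl⟩
    have hPc : P.card = G.card ^ t := by
      rw [hP, Fintype.card_piFinset]; simp
    have hGne : G.Nonempty := Finset.nonempty_iff_ne_empty.2 hG0
    obtain ⟨g0, hg0⟩ := hGne
    have hPne : P.Nonempty := ⟨fun _ => g0, by rw [hP, Fintype.mem_piFinset]; exact fun _ => hg0⟩
    -- the most frequent code
    obtain ⟨y, hy, hmax⟩ := Finset.exists_max_image (P.image code) (fun y => (P.filter (fun f => code f = y)).card)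
      (hPne.image code)
    have h1 : P.card ≤ N * (P.filter (fun f => code f = y)).card := by
      have h2 : P.card = ∑ z ∈ P.image code, (P.filter (fun f => code f = z)).card :=
        Finset.card_eq_sum_card_image code P
      rw [h2]
      refine (Finset.sum_le_card_nsmul _ _ _ hmax).trans ?_
      rw [smul_eq_mul]
      refine Nat.mul_le_mul_right _ ?_
      rw [hP]
      exact hN G (Finset.Subset.refl G)
    obtain ⟨f0, hf0P, hf0⟩ := Finset.mem_image.1 hy
    -- the elements covered by this code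
    obtain ⟨C, hC⟩ : ∃ C, C = G.filter (fun g => ∃ f ∈ P, code f = y ∧ ∃ i, f i = g) := ⟨_, rfl⟩
    have hCG : C ⊆ G := by rw [hC]; exact Finset.filter_subset _ _
    have h3 : P.filter (fun f => code f = y) ⊆ Fintype.piFinset (fun _ : Fin t => C) := by
      intro f hf
      rw [Finset.mem_filter] at hf
      rw [Fintype.mem_piFinset]
      intro i
      rw [hC, Finset.mem_filter]
      refine ⟨?_, f, hf.1, hf.2, i, rfl⟩
      have := hf.1
      rw [hP, Fintype.mem_piFinset] at this
      exact this i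
    have h4 : (P.filter (fun f => code f = y)).card ≤ C.card ^ t := by
      refine (Finset.card_le_card h3).trans ?_
      rw [Fintype.card_piFinset]; simp
    have h5 : G.card ≤ a * C.card := by
      have h6 : G.card ^ t ≤ (a * C.card) ^ t := by
        rw [mul_pow, ← hPc]
        calc P.card ≤ N * (P.filter (fun f => code f = y)).card := h1
          _ ≤ a ^ t * C.card ^ t := Nat.mul_le_mul haN h4
      exact (Nat.pow_le_pow_iff_left (by omega)).1 h6
    have h7 : (G \ C).card = G.card - C.card := Finset.card_sdiff_of_subset hCG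
    have hCle : C.card ≤ G.card := Finset.card_le_card hCG
    have h8 : a * (G \ C).card ≤ (a - 1) * G.card := by
      rw [h7]
      obtain ⟨b, rfl⟩ : ∃ b, a = b + 1 := ⟨a - 1, by omega⟩
      rw [Nat.mul_sub, Nat.add_sub_cancel]
      have : (b + 1) * G.card = b * G.card + G.card := by ring
      omega
    have h9 : (G \ C).card * (a - 1) ^ j < a ^ j := by
      have h10 : a * ((G \ C).card * (a - 1) ^ j) < a * a ^ j := by
        calc a * ((G \ C).card * (a - 1) ^ j) = (a * (G \ C).card) * (a - 1) ^ j := by ring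
          _ ≤ ((a - 1) * G.card) * (a - 1) ^ j := Nat.mul_le_mul_right _ h8
          _ = G.card * (a - 1) ^ (j + 1) := by ring
          _ < a ^ (j + 1) := hG
          _ = a * a ^ j := by ring
      exact Nat.lt_of_mul_lt_mul_left h10
    obtain ⟨E, e1, e2, e3⟩ := ih (G \ C) (fun H hH => hN H (hH.trans Finset.sdiff_subset)) h9
    refine ⟨f0 :: E, by simpa using e1, ?_, ?_⟩
    · intro f hf i
      rcases List.mem_cons.1 hf with rfl | hf
      · rw [hP, Fintype.mem_piFinset] at hf0P
        exact hf0P i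
      · exact (Finset.mem_sdiff.1 (e2 f hf i)).1
    · intro g hg
      by_cases hgC : g ∈ C
      · have hgC' := hgC
        rw [hC, Finset.mem_filter] at hgC'
        obtain ⟨_, f, hfP, hfy, i, hi⟩ := hgC'
        refine ⟨f, ?_, ⟨i, hi⟩, f0, List.mem_cons_self, by rw [hfy, hf0]⟩
        rw [hP, Fintype.mem_piFinset] at hfP
        exact hfP
      · obtain ⟨f, k1, k2, f', k3, k4⟩ := e3 g (Finset.mem_sdiff.2 ⟨hg, hgC⟩)
        exact ⟨f, fun i => (Finset.mem_sdiff.1 (k1 i)).1, k2, f', List.mem_cons_of_mem _ k3, k4⟩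

theorem two_mul_pred_pow (a : ℕ) (ha : 1 ≤ a) : 2 * (a - 1) ^ a ≤ a ^ a := by
  obtain ⟨b, rfl⟩ : ∃ b, a = b + 1 := ⟨a - 1, by omega⟩
  rw [Nat.add_sub_cancel]
  rcases Nat.eq_zero_or_pos b with rfl | hb
  · simp
  · have hb' : (0 : ℝ) < b := by exact_mod_cast hb
    have h1 : 1 + ((b + 1 : ℕ) : ℝ) * (1 / b) ≤ (1 + 1 / (b : ℝ)) ^ (b + 1) := by
      refine one_add_mul_le_pow ?_ (b + 1)
      have : 0 < 1 / (b : ℝ) := by positivity
      linarith
    have h2 : (2 : ℝ) ≤ 1 + ((b + 1 : ℕ) : ℝ) * (1 / b) := by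
      have : (1 : ℝ) ≤ ((b + 1 : ℕ) : ℝ) * (1 / b) := by
        rw [mul_one_div, le_div_iff₀ hb']
        push_cast
        linarith
      linarith
    have h3 : (2 : ℝ) * (b : ℝ) ^ (b + 1) ≤ ((b : ℝ) + 1) ^ (b + 1) := by
      calc (2 : ℝ) * (b : ℝ) ^ (b + 1) ≤ (1 + 1 / (b : ℝ)) ^ (b + 1) * (b : ℝ) ^ (b + 1) :=
            mul_le_mul_of_nonneg_right (h2.trans h1) (by positivity)
        _ = ((b : ℝ) + 1) ^ (b + 1) := by
            rw [← mul_pow]
            congr 1
            field_simp
    exact_mod_cast h3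

/-- the number of steps -/
theorem steps_bound (a k : ℕ) (ha : 1 ≤ a) : 2 ^ k * (a - 1) ^ (a * (k + 1)) < a ^ (a * (k + 1)) := by
  have h1 : (2 * (a - 1) ^ a) ^ (k + 1) ≤ (a ^ a) ^ (k + 1) := Nat.pow_le_pow_left (two_mul_pred_pow a ha) _
  rw [mul_pow, ← pow_mul, ← pow_mul] at h1
  have h2 : 0 < a ^ (a * (k + 1)) := by positivity
  rcases Nat.eq_zero_or_pos ((a - 1) ^ (a * (k + 1))) with h3 | h3
  · rw [h3, Nat.mul_zero]
    exact h2
  · have h4 : 2 ^ k * (a - 1) ^ (a * (k + 1)) < 2 ^ (k + 1) * (a - 1) ^ (a * (k + 1)) := by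
      refine Nat.mul_lt_mul_of_pos_right ?_ h3
      exact Nat.pow_lt_pow_right (by norm_num) (by omega)
    omega

end Pool.Agent.W2helper58.OD
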