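import Pool.Agent.W2helper58.OD.Compl

/-!
# Compression and the refutation of unique certificates
-/

set_option autoImplicit false

namespace Pool.Agent.W2helper58.OD

open Pool.Agent.NPC Pool.Agent.H579R2.Spt

/-- `t n` instances of `L` of length at most `n` are compressed in polynomial time to a string of at most `s n` bits
which determines the value of the connective (OR for `b = false`, AND for `b = true`) -/
def Compresses (b : Bool) (L : Set (List Bool)) (t : Polynomial ℕ) (s : ℕ → ℕ) : Prop :=
  ∃ (F : List Bool → List Bool) (T : ℕ → Set (List Bool)), PolyTime F ∧ ∀ (n : ℕ) (l : List (List Bool)),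
    l.length = t.eval n → (∀ x ∈ l, x.length ≤ n) →
      (F (bits (List.replicate n true, l))).length ≤ s n ∧
      (F (bits (List.replicate n true, l)) ∈ T n ↔ conn b L l)

/-- unique certificates can be refuted -/
def Refutes : Prop :=
  ∀ (V0 : List Bool → List Bool), PolyTime V0 → ∀ p : Polynomial ℕ,
    ∃ (C : List Bool → Crt → Bool) (σ : Polynomial ℕ), Poly (fun q : List Bool × Crt => C q.1 q.2) ∧ ∀ x,
      ((∀ w, ver V0 p x w = false) → ∃ τ, C x τ = true ∧ sz τ ≤ σ.eval x.length) ∧
      (∀ w, ver V0 p x w = true → (∀ w', ver V0 p x w' = true → w' = w) → ∀ τ, C x τ = false)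

theorem refutes {b : Bool} {L : Set (List Bool)} {t : Polynomial ℕ} {s : ℕ → ℕ} (hL : NPHard L)
    (hC : Compresses b L t s) (M : Polynomial ℕ) (hM : ∀ n, 2 ^ (s n + 1) < (M.eval n).choose (t.eval n)) :
    Refutes := by
  intro V0 hV0 p
  obtain ⟨F, T, hF, hFT⟩ := hC
  obtain ⟨g, hg, hgL⟩ := hL _ (lam_inNP b hV0 p)
  have hg' : Poly g := PIso.poly_iff.2 hg
  have hgb : Poly (fun a : List Bool × List Bool => g (bits a)) := hg'.comp bits_poly
  obtain ⟨r, hr⟩ := hgb.sz_le
  obtain ⟨N, hN⟩ : ∃ N : Polynomial ℕ, ∀ n, N.eval n = r.eval (4 * n + 4 * p.eval n + 7) := by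
    refine ⟨r.comp (Polynomial.C 4 * Polynomial.X + Polynomial.C 4 * p + Polynomial.C 7), fun n => ?_⟩
    simp [Polynomial.eval_comp]
  obtain ⟨c, hc⟩ : ∃ c : Ctx, c = ⟨b, V0, p, g, F, N, t⟩ := ⟨_, rfl⟩
  have hgood : c.Good L := by
    rw [hc]
    refine ⟨?_, ?_, ?_⟩
    · intro a
      rw [← hgL, bits_mem_lang]
    · intro x v hv
      change (g (bits (x, v))).length ≤ N.eval x.length
      have hv : v.length ≤ p.eval x.length + 1 := hv
      have h1 : sz (g (bits (x, v))) ≤ r.eval (sz (x, v)) := hr (x, v)
      have h2 := length_lt_sz (g (bits (x, v)))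
      have h3 := sz_listBool_le x
      have h4 := sz_listBool_le v
      have h5 : r.eval (sz (x, v)) ≤ N.eval x.length := by
        rw [hN]
        refine eval_mono r ?_
        rw [sz_pair]
        omega
      omega
    · intro n l l' h1 h2 h3 h4 h5
      have h5' : F (bits (List.replicate n true, l)) = F (bits (List.replicate n true, l')) := h5
      rw [← (hFT n l h1 h3).2, ← (hFT n l' h2 h4).2, h5']
  refine ⟨c.chk, Polynomial.C 16 * ((p + Polynomial.C 3) * (M.comp N + 1) * (t.comp N + 2) *
    (Polynomial.C 4 * (p + 1) + 2)), ?_, ?_⟩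
  · refine c.chk_poly ?_ ?_ ?_ (NPC.Poly.fst NPC.Poly.id) (NPC.Poly.snd NPC.Poly.id)
    · rw [hc]; exact hV0
    · rw [hc]; exact hg
    · rw [hc]; exact hF
  · intro x
    have e1 : c.p = p := by rw [hc]
    have e2 : c.V0 = V0 := by rw [hc]
    have e3 : c.N = N := by rw [hc]
    have e4 : c.t = t := by rw [hc]
    constructor
    · intro hno
      have h1 := Ctx.complete (c := c) x (s (N.eval x.length)) (M.eval (N.eval x.length))
        (by rw [e3, e4]; exact hM _) (by
          intro S h2 h3
          have h4 := hFT (N.eval x.length) (S.map (fun v => g (bits (x, v)))) (by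
            rw [List.length_map, h2, e3, e4]) (by
            intro y hy
            obtain ⟨v, hv, rfl⟩ := List.mem_map.1 hy
            have h5 := hgood.len x v (h3 v hv)
            rw [hc] at h5
            exact h5)
          unfold Ctx.code
          rw [hc]
          exact h4.1) (by rw [e1, e2]; exact hno)
      obtain ⟨τ, h2, h3⟩ := h1
      refine ⟨τ, h2, h3.trans (le_of_eq ?_)⟩
      rw [e1, e3, e4]
      simp [Polynomial.eval_comp]
    · intro w hw hu τ
      rw [← e1, ← e2] at hw hu
      exact hgood.sound hw hu τ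

end Pool.Agent.W2helper58.OD
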