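import Pool.Agent.W2helper58.OD.AM

/-!
# `FewP ⊆ coNP` if unique certificates can be refuted
-/

set_option autoImplicit false

namespace Pool.Agent.W2helper58.OD

open Pool.Agent.NPC Pool.Agent.H579R2.Spt Finset

/-- The class `FewP`: languages with a polynomial-time verifier which accepts at most polynomially many certificates. -/
def InFewP (L : Set (List Bool)) : Prop :=
  ∃ (V : List Bool → List Bool) (p s : Polynomial ℕ), PolyTime V ∧ ∀ x,
    (x ∈ L ↔ ∃ w : List Bool, w.length ≤ p.eval x.length ∧ V (pairBits x w) = [true]) ∧
    {w : List Bool | w.length ≤ p.eval x.length ∧ V (pairBits x w) = [true]}.ncard ≤ s.eval x.length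

/-- a number for each string -/
def num (w : List Bool) : ℕ := valB (w ++ [true])

theorem valB_inj : ∀ {u v : List Bool}, u.length = v.length → valB u = valB v → u = v := by
  intro u
  induction u with
  | nil => intro v h _; exact (List.length_eq_zero_iff.1 h.symm).symm
  | cons a u ih =>
    intro v h1 h2
    cases v with
    | nil => simp at h1
    | cons b v =>
      simp only [valB_cons] at h2
      have h3 : a = b := by
        cases a <;> cases b <;> simp at h2 ⊢ <;> omega
      subst h3
      rw [ih (by simpa using h1) (by omega)]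

theorem num_inj : Function.Injective num := by
  intro u v h
  unfold num at h
  rw [valB_append, valB_append] at h
  simp only [valB_cons, if_true, valB_nil] at h
  have h1 := valB_lt u
  have h2 := valB_lt v
  have h3 : u.length = v.length := by
    by_contra hne
    rcases lt_or_gt_of_ne hne with h4 | h4
    · have : 2 ^ (u.length + 1) ≤ 2 ^ v.length := Nat.pow_le_pow_right (by norm_num) h4
      rw [pow_succ] at this
      omega
    · have : 2 ^ (v.length + 1) ≤ 2 ^ u.length := Nat.pow_le_pow_right (by norm_num) h4
      rw [pow_succ] at this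
      omega
  rw [h3] at h
  exact valB_inj h3 (by omega)

/-- the list is increasing -/
def incr (l : List (List Bool)) : Bool := (l.zip l.tail).all (fun q => decide (num q.1 < num q.2))

theorem incr_iff (l : List (List Bool)) : incr l = true ↔ l.Pairwise (fun a b => num a < num b) := by
  have key : ∀ l : List (List Bool), incr l = true ↔ List.IsChain (fun a b => num a < num b) l := by
    intro l
    induction l with
    | nil => simp [incr]
    | cons a l ih =>
      cases l with
      | nil => simp [incr]
      | cons b l =>
        rw [List.isChain_cons_cons, ← ih]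
        simp [incr]
  rw [key]
  constructor
  · intro h
    exact List.isChain_iff_pairwise.1 h
  · intro h
    exact List.isChain_iff_pairwise.2 h

theorem incr_poly {α : Type} [TEnc α] {l : α → List (List Bool)} (hl : Poly l) : Poly (fun a => incr (l a)) := by
  unfold incr
  refine NPC.Poly.all (l := fun a => (l a).zip (l a).tail) (p := fun _ q => decide (num q.1 < num q.2))
    (NPC.Poly.zip hl (NPC.Poly.tail hl)) ?_
  have h1 : ∀ {β : Type} [TEnc β] {w : β → List Bool}, Poly w → Poly (fun b => num (w b)) := by
    intro β _ w hw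
    unfold num
    exact NPC.Poly.valBits (NPC.Poly.append hw (NPC.Poly.const _))
  exact NPC.Poly.decide_lt (h1 (NPC.Poly.fst (NPC.Poly.snd NPC.Poly.id)))
    (h1 (NPC.Poly.snd (NPC.Poly.snd NPC.Poly.id)))

section

variable (V0 : List Bool → List Bool) (p : Polynomial ℕ)

/-- `l` is the increasing list of `|J|` certificates of `x` -/
def ok (x J : List Bool) (l : List (List Bool)) : Bool :=
  decide (l.length = J.length) && (l.all (fun w => ver V0 p x w) && incr l)

/-- the verifier for lists of certificates -/
def gk (y : List Bool) : Bool :=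
  ((unbits (List Bool × List Bool) (unpair y).1).bind (fun b =>
    (unbits (List (List Bool)) (unpair y).2).map (fun l => ok V0 p b.1 b.2 l))).getD false

theorem gk_poly (hV0 : PolyTime V0) : Poly (gk V0 p) := by
  unfold gk
  have e1 : Poly (fun y : List Bool => (unpair y).1) := NPC.Poly.fst poly_unpair
  have e2 : Poly (fun y : List Bool => (unpair y).2) := NPC.Poly.snd poly_unpair
  refine NPC.Poly.optGetD (NPC.Poly.optBind (o := fun y => unbits (List Bool × List Bool) (unpair y).1)
    (f := fun y b => (unbits (List (List Bool)) (unpair y).2).map (fun l => ok V0 p b.1 b.2 l))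
    (poly_unbits.comp e1) ?_) (NPC.Poly.const _)
  refine NPC.Poly.optMap (o := fun q : List Bool × (List Bool × List Bool) => unbits (List (List Bool)) (unpair q.1).2)
    (f := fun q l => ok V0 p q.2.1 q.2.2 l) (poly_unbits.comp (e2.comp (NPC.Poly.fst NPC.Poly.id))) ?_
  have d1 : Poly (fun q : (List Bool × (List Bool × List Bool)) × List (List Bool) => q.1.2.1) :=
    NPC.Poly.fst (NPC.Poly.snd (NPC.Poly.fst NPC.Poly.id))
  have d2 : Poly (fun q : (List Bool × (List Bool × List Bool)) × List (List Bool) => q.1.2.2) :=
    NPC.Poly.snd (NPC.Poly.snd (NPC.Poly.fst NPC.Poly.id))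
  have d3 : Poly (fun q : (List Bool × (List Bool × List Bool)) × List (List Bool) => q.2) :=
    NPC.Poly.snd NPC.Poly.id
  unfold ok
  refine NPC.Poly.and (NPC.Poly.decide_eq (NPC.Poly.length d3) (NPC.Poly.length d2)) (NPC.Poly.and ?_ (incr_poly d3))
  refine NPC.Poly.all (l := fun q : (List Bool × (List Bool × List Bool)) × List (List Bool) => q.2)
    (p := fun q w => ver V0 p q.1.2.1 w) d3 ?_
  exact (ver_poly hV0 p).comp (NPC.Poly.pair (d1.comp (NPC.Poly.fst NPC.Poly.id)) (NPC.Poly.snd NPC.Poly.id))

/-- the bound for the codes of the lists of certificates -/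
noncomputable def pk : Polynomial ℕ := Polynomial.X * (Polynomial.C 4 * p + 2) + 1

theorem ver_gk (x J w : List Bool) : ver (fun y => [gk V0 p y]) (pk p) (bits (x, J)) w = true ↔
    ∃ l, bits l = w ∧ ok V0 p x J l = true := by
  rw [ver_iff]
  have h1 : gk V0 p (pairBits (bits (x, J)) w) =
      ((unbits (List (List Bool)) w).map (fun l => ok V0 p x J l)).getD false := by
    unfold gk
    rw [unpair_pairBits]
    simp only [unbits_bits, Option.bind_some]
  simp only [h1, List.cons.injEq, and_true]
  constructor
  · rintro ⟨_, h⟩
    cases hu : unbits (List (List Bool)) w with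
    | none => rw [hu] at h; simp at h
    | some l =>
      rw [hu] at h
      simp only [Option.map_some, Option.getD_some] at h
      exact ⟨l, bits_of_unbits hu, h⟩
  · rintro ⟨l, rfl, hl⟩
    refine ⟨?_, by simp only [unbits_bits, Option.map_some, Option.getD_some]; exact hl⟩
    rw [bits_length, bits_length]
    unfold ok at hl
    rw [Bool.and_eq_true, Bool.and_eq_true, decide_eq_true_eq, List.all_eq_true] at hl
    obtain ⟨h2, h3, -⟩ := hl
    have h4 := Ctx.sz_strings_le l l.length (p.eval x.length) le_rfl (fun v hv => (ver_iff.1 (h3 v hv)).1)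
    have h5 : l.length ≤ sz (x, J) := by
      rw [h2, sz_pair]
      have := length_lt_sz J
      omega
    have h6 : p.eval x.length ≤ p.eval (sz (x, J)) := by
      refine eval_mono p ?_
      rw [sz_pair]
      have := length_lt_sz x
      omega
    have h7 : (pk p).eval (sz (x, J)) = sz (x, J) * (4 * p.eval (sz (x, J)) + 2) + 1 := by
      simp [pk]
    rw [h7]
    have h8 : l.length * (4 * p.eval x.length + 2) ≤ sz (x, J) * (4 * p.eval (sz (x, J)) + 2) :=
      Nat.mul_le_mul h5 (by omega)
    omega

end

/-- the increasing list of the elements of a set -/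
theorem exists_incr (W : Finset (List Bool)) : ∃ l : List (List Bool), l.length = W.card ∧ (∀ w, w ∈ l ↔ w ∈ W) ∧
    incr l = true := by
  classical
  induction hn : W.card generalizing W with
  | zero =>
    refine ⟨[], rfl, ?_, rfl⟩
    rw [Finset.card_eq_zero] at hn
    rw [hn]; simp
  | succ n ih =>
    obtain ⟨w0, hw0, hmin⟩ := Finset.exists_min_image W num (Finset.card_pos.1 (by omega))
    obtain ⟨l, h1, h2, h3⟩ := ih (W.erase w0) (by rw [Finset.card_erase_of_mem hw0, hn]; rfl)
    refine ⟨w0 :: l, by simp [h1], ?_, ?_⟩
    · intro w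
      rw [List.mem_cons, h2, Finset.mem_erase]
      constructor
      · rintro (rfl | h)
        · exact hw0
        · exact h.2
      · intro h
        by_cases he : w = w0
        · exact Or.inl he
        · exact Or.inr ⟨he, h⟩
    · rw [incr_iff, List.pairwise_cons]
      refine ⟨?_, (incr_iff l).1 h3⟩
      intro w hw
      have h4 := Finset.mem_erase.1 ((h2 w).1 hw)
      refine lt_of_le_of_ne (hmin w h4.2) ?_
      intro he
      exact h4.1 (num_inj he).symm

theorem incr_unique {l l' : List (List Bool)} (h : incr l = true) (h' : incr l' = true) (hm : ∀ w, w ∈ l ↔ w ∈ l') :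
    l = l' := by
  rw [incr_iff] at h h'
  have n1 : l.Nodup := h.imp (fun hab he => by rw [he] at hab; exact lt_irrefl _ hab)
  have n2 : l'.Nodup := h'.imp (fun hab he => by rw [he] at hab; exact lt_irrefl _ hab)
  have hp : l.Perm l' := (List.perm_ext_iff_of_nodup n1 n2).2 hm
  exact List.Perm.eq_of_pairwise (fun a b _ _ h1 h2 => absurd h1 (lt_asymm h2)) h h' hp

theorem fewP_subset_coNP (H : Refutes) {L : Set (List Bool)} (hL : InFewP L) : InCoNP L := by
  classical
  obtain ⟨V0, p, s, hV0, hLV⟩ := hL
  have hL2 : ∀ x, x ∈ L ↔ ∃ w, ver V0 p x w = true := by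
    intro x
    rw [(hLV x).1]
    exact exists_congr fun w => ver_iff.symm
  obtain ⟨C, σ, hC, hσ⟩ := H (fun y => [gk V0 p y]) (polyTime_of_poly (gk_poly V0 p hV0)) (pk p)
  obtain ⟨Jx, hJx⟩ : ∃ J : List Bool → ℕ → List Bool, J = fun x j => (List.replicate (s.eval x.length) true).take (j + 1) :=
    ⟨_, rfl⟩
  obtain ⟨V, hV⟩ : ∃ V : List Bool → Bool, V = fun y => ((unbits (List Crt) (unpair y).2).map
    (fun τs => (List.range (s.eval (unpair y).1.length)).all (fun j => τs.any (fun τ =>
      C (bits ((unpair y).1, Jx (unpair y).1 j)) τ)))).getD false := ⟨_, rfl⟩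
  have hVp : Poly V := by
    rw [hV, hJx]
    have e1 : Poly (fun y : List Bool => (unpair y).1) := NPC.Poly.fst poly_unpair
    have e2 : Poly (fun y : List Bool => (unpair y).2) := NPC.Poly.snd poly_unpair
    refine NPC.Poly.optGetD (NPC.Poly.optMap (o := fun y => unbits (List Crt) (unpair y).2)
      (f := fun y τs => (List.range (s.eval (unpair y).1.length)).all (fun j => τs.any (fun τ =>
      C (bits ((unpair y).1, (List.replicate (s.eval (unpair y).1.length) true).take (j + 1))) τ)))
      (poly_unbits.comp e2) ?_) (NPC.Poly.const _)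
    have b1 : Poly (fun q : List Bool × List Crt => (unpair q.1).1) := e1.comp (NPC.Poly.fst NPC.Poly.id)
    refine NPC.Poly.all (l := fun q : List Bool × List Crt => List.range (s.eval (unpair q.1).1.length))
      (p := fun q j => q.2.any (fun τ =>
      C (bits ((unpair q.1).1, (List.replicate (s.eval (unpair q.1).1.length) true).take (j + 1))) τ))
      ((UPoly.length b1).eval s).range ?_
    refine NPC.Poly.any (l := fun q : (List Bool × List Crt) × ℕ => q.1.2) (p := fun q τ =>
      C (bits ((unpair q.1.1).1, (List.replicate (s.eval (unpair q.1.1).1.length) true).take (q.2 + 1))) τ)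
      (NPC.Poly.snd (NPC.Poly.fst NPC.Poly.id)) ?_
    have d1 : Poly (fun q : ((List Bool × List Crt) × ℕ) × Crt => (unpair q.1.1.1).1) :=
      e1.comp (NPC.Poly.fst (NPC.Poly.fst (NPC.Poly.fst NPC.Poly.id)))
    have d2 : Poly (fun q : ((List Bool × List Crt) × ℕ) × Crt => q.1.2) := NPC.Poly.snd (NPC.Poly.fst NPC.Poly.id)
    have d3 : Poly (fun q : ((List Bool × List Crt) × ℕ) × Crt => List.replicate (s.eval (unpair q.1.1.1).1.length) true) := by
      have h1 : Poly (fun q : ((List Bool × List Crt) × ℕ) × Crt =>
          (List.replicate (s.eval (unpair q.1.1.1).1.length) ()).map (fun _ => true)) := by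
        refine NPC.Poly.map (l := fun q : ((List Bool × List Crt) × ℕ) × Crt =>
          List.replicate (s.eval (unpair q.1.1.1).1.length) ()) (F := fun _ _ => true) ?_ (NPC.Poly.const _)
        exact (UPoly.length d1).eval s
      exact h1.congr fun a => by simp
    refine hC.comp (NPC.Poly.pair (bits_poly.comp (NPC.Poly.pair d1 (take_poly' d3 (NPC.Poly.succ d2))))
      (NPC.Poly.snd NPC.Poly.id))
  have hVx : ∀ x w, V (pairBits x w) = ((unbits (List Crt) w).map (fun τs => (List.range (s.eval x.length)).all
      (fun j => τs.any (fun τ => C (bits (x, Jx x j)) τ)))).getD false := by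
    intro x w
    rw [hV]
    simp only [unpair_pairBits]
  obtain ⟨Bx, hBx⟩ : ∃ B : Polynomial ℕ, ∀ n, B.eval n = σ.eval (4 * n + 4 * s.eval n + 3) := by
    refine ⟨σ.comp (Polynomial.C 4 * Polynomial.X + Polynomial.C 4 * s + Polynomial.C 3), fun n => ?_⟩
    simp [Polynomial.eval_comp]
  obtain ⟨q, hq⟩ : ∃ q : Polynomial ℕ, ∀ n, q.eval n = s.eval n * (Bx.eval n + 1) + 1 := by
    refine ⟨s * (Bx + 1) + 1, fun n => ?_⟩
    simp
  have hJl : ∀ x : List Bool, ∀ j < s.eval x.length, (Jx x j).length = j + 1 := by
    intro x j hj
    rw [hJx]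
    simp only [List.length_take, List.length_replicate]
    omega
  refine ⟨fun y => [V y], q, polyTime_of_poly hVp, fun x => ⟨?_, ?_⟩⟩
  · intro hx
    have hno : ∀ w, ver V0 p x w = false := by
      intro w
      by_contra h
      exact hx ((hL2 x).2 ⟨w, by simpa using h⟩)
    have hτ : ∀ j : ℕ, ∃ τ, j < s.eval x.length → C (bits (x, Jx x j)) τ = true ∧ sz τ ≤ Bx.eval x.length := by
      intro j
      by_cases hj : j < s.eval x.length
      · obtain ⟨τ, h1, h2⟩ := (hσ (bits (x, Jx x j))).1 (by
          intro w
          by_contra h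
          obtain ⟨l, _, hl⟩ := (ver_gk V0 p x (Jx x j) w).1 (by simpa using h)
          unfold ok at hl
          rw [Bool.and_eq_true, Bool.and_eq_true, decide_eq_true_eq, List.all_eq_true, hJl x j hj] at hl
          obtain ⟨h2, h3, -⟩ := hl
          cases l with
          | nil => simp at h2
          | cons a l =>
            have := h3 a List.mem_cons_self
            rw [hno a] at this
            exact absurd this (by simp))
        refine ⟨τ, fun _ => ⟨h1, h2.trans ?_⟩⟩
        rw [hBx]
        refine eval_mono σ ?_
        rw [bits_length, sz_pair]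
        have h3 := sz_listBool_le x
        have h4 := sz_listBool_le (Jx x j)
        have h5 := hJl x j hj
        omega
      · exact ⟨([], []), fun h => absurd h hj⟩
    choose f hf using hτ
    refine ⟨bits ((List.range (s.eval x.length)).map f), ?_, ?_⟩
    · rw [bits_length, hq]
      have h1 := sz_le_length_mul ((List.range (s.eval x.length)).map f) (Bx.eval x.length) (by
        intro τ hτ
        obtain ⟨j, hj, rfl⟩ := List.mem_map.1 hτ
        exact (hf j (List.mem_range.1 hj)).2)
      simpa using h1
    · change [V (pairBits x (bits ((List.range (s.eval x.length)).map f)))] = [true]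
      rw [hVx]
      simp only [unbits_bits, Option.map_some, Option.getD_some, List.cons.injEq, and_true]
      rw [List.all_eq_true]
      intro j hj
      rw [List.any_eq_true]
      exact ⟨f j, List.mem_map.2 ⟨j, hj, rfl⟩, (hf j (List.mem_range.1 hj)).1⟩
  · rintro ⟨w, _, hw⟩ hxL
    have hw : [V (pairBits x w)] = [true] := hw
    rw [hVx] at hw
    simp only [List.cons.injEq, and_true] at hw
    cases hu : unbits (List Crt) w with
    | none => rw [hu] at hw; simp at hw
    | some τs =>
      rw [hu] at hw
      simp only [Option.map_some, Option.getD_some] at hw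
      rw [List.all_eq_true] at hw
      have hfin : {w | ver V0 p x w = true}.Finite := by
        refine (List.finite_length_le Bool (p.eval x.length)).subset fun w hw => ?_
        exact (ver_iff.1 hw).1
      obtain ⟨W, hW⟩ : ∃ W : Finset (List Bool), W = hfin.toFinset := ⟨_, rfl⟩
      have hWm : ∀ w, w ∈ W ↔ ver V0 p x w = true := fun w => by rw [hW]; simp
      have hW1 : 1 ≤ W.card := by
        obtain ⟨w, hw⟩ := (hL2 x).1 hxL
        exact Finset.card_pos.2 ⟨w, (hWm w).2 hw⟩
      have hWs : W.card ≤ s.eval x.length := by
        have h1 := (hLV x).2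
        have h2 : {w : List Bool | w.length ≤ p.eval x.length ∧ V0 (pairBits x w) = [true]} = ↑W := by
          ext w
          rw [Finset.mem_coe, hWm, ver_iff]
          rfl
        rw [h2, Set.ncard_coe_finset] at h1
        exact h1
      obtain ⟨j, hj⟩ : ∃ j, W.card = j + 1 := ⟨W.card - 1, by omega⟩
      have h3 := hw j (List.mem_range.2 (by omega))
      rw [List.any_eq_true] at h3
      obtain ⟨τ, _, h4⟩ := h3
      obtain ⟨l, l1, l2, l3⟩ := exists_incr W
      have hJ := hJl x j (by omega)
      have h5 : ver (fun y => [gk V0 p y]) (pk p) (bits (x, Jx x j)) (bits l) = true := by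
        rw [ver_gk]
        refine ⟨l, rfl, ?_⟩
        unfold ok
        rw [Bool.and_eq_true, Bool.and_eq_true, decide_eq_true_eq, List.all_eq_true]
        exact ⟨by rw [l1, hJ, hj], fun w hw => (hWm w).1 ((l2 w).1 hw), l3⟩
      have h6 := (hσ (bits (x, Jx x j))).2 (bits l) h5 (by
        intro w' hw'
        obtain ⟨l', rfl, hl'⟩ := (ver_gk V0 p x (Jx x j) w').1 hw'
        unfold ok at hl'
        rw [Bool.and_eq_true, Bool.and_eq_true, decide_eq_true_eq, List.all_eq_true] at hl'
        obtain ⟨m1, m2, m3⟩ := hl'
        have m4 : l' = l := by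
          refine incr_unique m3 l3 ?_
          have m5 : l'.toFinset ⊆ W := by
            intro w hw
            exact (hWm w).2 (m2 w (List.mem_toFinset.1 hw))
          have m6 : l'.Nodup := ((incr_iff l').1 m3).imp (fun hab he => by rw [he] at hab; exact lt_irrefl _ hab)
          have m7 : l'.toFinset = W := by
            refine Finset.eq_of_subset_of_card_le m5 ?_
            rw [List.toFinset_card_of_nodup m6, m1, hJ, hj]
          intro w
          rw [l2, ← m7, List.mem_toFinset]
        rw [m4]) τ
      rw [h6] at h4
      exact absurd h4 (by simp)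

end Pool.Agent.W2helper58.OD
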