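import Pool.Agent.W2helper58.OD.Few

/-!
# Assembly: compression to `O(t log t)` bits, distillation
-/

set_option autoImplicit false

namespace Pool.Agent.W2helper58.OD

open Pool.Agent.NPC Pool.Agent.H579R2.Spt

theorem pow_le_choose (t K : ℕ) (ht : 1 ≤ t) : K ^ t ≤ (t * K + t).choose t := by
  have h1 : (t * K + t + 1 - t) ^ t ≤ (t * K + t).descFactorial t := Nat.pow_sub_le_descFactorial _ _
  rw [Nat.descFactorial_eq_factorial_mul_choose] at h1
  have h2 : t.factorial ≤ t ^ t := Nat.factorial_le_pow t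
  have h3 : (t * K) ^ t ≤ (t * K + t + 1 - t) ^ t := Nat.pow_le_pow_left (by omega) t
  have h4 : t ^ t * K ^ t ≤ t ^ t * (t * K + t).choose t := by
    calc t ^ t * K ^ t = (t * K) ^ t := (mul_pow _ _ _).symm
      _ ≤ t.factorial * (t * K + t).choose t := h3.trans h1
      _ ≤ t ^ t * (t * K + t).choose t := Nat.mul_le_mul_right _ h2
  exact Nat.le_of_mul_le_mul_left h4 (by positivity)

theorem choose_bound (t s c : ℕ) (ht : 2 ≤ t) (hs : s ≤ c * (t * Nat.log 2 t)) :
    2 ^ (s + 1) < (t * t ^ (c + 1) + t).choose t := by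
  have h1 := pow_le_choose t (t ^ (c + 1)) (by omega)
  have h2 : 2 ^ Nat.log 2 t ≤ t := Nat.pow_log_le_self 2 (by omega)
  have h3 : (2 ^ Nat.log 2 t) ^ ((c + 1) * t) ≤ (t ^ (c + 1)) ^ t := by
    rw [← pow_mul t]
    exact Nat.pow_le_pow_left h2 _
  have h4 : 1 ≤ Nat.log 2 t := Nat.log_pos (by norm_num) ht
  have h5 : s + 1 < Nat.log 2 t * ((c + 1) * t) := by
    have h6 : 2 ≤ t * Nat.log 2 t := by nlinarith
    calc s + 1 < c * (t * Nat.log 2 t) + t * Nat.log 2 t := by omega
      _ = _ := by ring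
  calc 2 ^ (s + 1) < 2 ^ (Nat.log 2 t * ((c + 1) * t)) := Nat.pow_lt_pow_right (by norm_num) h5
    _ = (2 ^ Nat.log 2 t) ^ ((c + 1) * t) := by rw [← pow_mul]
    _ ≤ _ := h3.trans h1

theorem refutes_of_log {b : Bool} {L : Set (List Bool)} {t : Polynomial ℕ} {s : ℕ → ℕ} (hL : NPHard L)
    (ht : ∀ n, 2 ≤ t.eval n) (c : ℕ) (hs : ∀ n, s n ≤ c * (t.eval n * Nat.log 2 (t.eval n)))
    (hC : Compresses b L t s) : Refutes := by
  refine refutes hL hC (t * t ^ (c + 1) + t) fun n => ?_
  simp only [Polynomial.eval_add, Polynomial.eval_mul, Polynomial.eval_pow]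
  exact choose_bound _ _ c (ht n) (hs n)

/-- a distillation is a compression -/
theorem compresses_of_distillation {b : Bool} {R : Set (List Bool)} {D : List (List Bool) → List Bool}
    (hD : ∃ F : List Bool → List Bool, PolyTime F ∧ ∀ l, F (bits l) = D l) {q : Polynomial ℕ}
    (hq : ∀ (n : ℕ) (l : List (List Bool)), l ≠ [] → (∀ x ∈ l, x.length ≤ n) → (D l).length ≤ q.eval n)
    (hR : ∀ l ≠ [], (D l ∈ R ↔ conn b R l)) : Compresses b R (q + 2) (fun n => q.eval n) := by
  obtain ⟨F, hF, hFD⟩ := hD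
  have hF' : Poly F := PIso.poly_iff.2 hF
  refine ⟨fun y => ((unbits (List Bool × List (List Bool)) y).map (fun a => F (bits a.2))).getD [], fun _ => R,
    PIso.poly_iff.1 ?_, ?_⟩
  · refine NPC.Poly.optGetD (NPC.Poly.optMap (o := fun y => unbits (List Bool × List (List Bool)) y)
      (f := fun _ a => F (bits a.2)) poly_unbits ?_) (NPC.Poly.const _)
    exact hF'.comp (bits_poly.comp (NPC.Poly.snd (NPC.Poly.snd NPC.Poly.id)))
  · intro n l hl hln
    have hne : l ≠ [] := by
      rintro rfl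
      simp at hl
    simp only [unbits_bits, Option.map_some, Option.getD_some]
    rw [hFD]
    exact ⟨hq n l hne hln, hR l hne⟩

theorem refutes_of_distillation {b : Bool} {R : Set (List Bool)} (hRh : NPHard R) {D : List (List Bool) → List Bool}
    (hD : ∃ F : List Bool → List Bool, PolyTime F ∧ ∀ l, F (bits l) = D l) {q : Polynomial ℕ}
    (hq : ∀ (n : ℕ) (l : List (List Bool)), l ≠ [] → (∀ x ∈ l, x.length ≤ n) → (D l).length ≤ q.eval n)
    (hR : ∀ l ≠ [], (D l ∈ R ↔ conn b R l)) : Refutes := by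
  refine refutes_of_log hRh (t := q + 2) (fun n => ?_) 1 (fun n => ?_) (compresses_of_distillation hD hq hR)
  · simp
  · have h1 : (q + 2 : Polynomial ℕ).eval n = q.eval n + 2 := by simp
    rw [h1]
    have h2 : 1 ≤ Nat.log 2 (q.eval n + 2) := Nat.log_pos (by norm_num) (by omega)
    nlinarith

end Pool.Agent.W2helper58.OD
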