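import Pool.Agent.W2helper58.OD.OrSound
import Pool.Agent.W2helper58.OD.Compl

/-!
# Certificates for the absence of certificates exist, for the connective OR
-/

set_option autoImplicit false

namespace Pool.Agent.W2helper58.OD

open Pool.Agent.NPC Pool.Agent.H579R2.Spt Finset

/-- the strings of length `k` are covered by few tuples -/
theorem cover_level (code : List (List Bool) → List Bool) (k t s a : ℕ) (ht : 1 ≤ t) (ha : 1 ≤ a)
    (hN : 2 ^ (s + 1) ≤ a ^ t)
    (hcode : ∀ S : List (List Bool), S.length = t → (∀ v ∈ S, v.length = k) → (code S).length ≤ s) :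
    ∃ E : List (List (List Bool)), E.length ≤ a * (k + 1) ∧ (∀ S ∈ E, S.length = t ∧ ∀ v ∈ S, v.length = k) ∧
      ∀ v : List Bool, v.length = k → ∃ S : List (List Bool), S.length = t ∧ (∀ u ∈ S, u.length = k) ∧ v ∈ S ∧
        ∃ S' ∈ E, code S = code S' := by
  classical
  have hcard : (BL k).card = 2 ^ k := by
    have h := card_BL k
    exact_mod_cast h
  obtain ⟨E, h1, h2, h3⟩ := cover t ht (fun f : Fin t → List Bool => code (List.ofFn f)) a (2 ^ (s + 1)) hN ha
    (a * (k + 1)) (BL k) (by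
      intro H hH
      refine card_le_short _ s ?_
      intro w hw
      obtain ⟨f, hf, rfl⟩ := Finset.mem_image.1 hw
      rw [Fintype.mem_piFinset] at hf
      refine hcode _ (List.length_ofFn) ?_
      intro v hv
      rw [List.mem_ofFn] at hv
      obtain ⟨i, rfl⟩ := hv
      exact mem_BL.1 (hH (hf i)))
    (by rw [hcard]; exact steps_bound a k ha)
  refine ⟨E.map (fun f => List.ofFn f), by simpa using h1, ?_, ?_⟩
  · intro S hS
    obtain ⟨f, hf, rfl⟩ := List.mem_map.1 hS
    refine ⟨List.length_ofFn, ?_⟩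
    intro v hv
    rw [List.mem_ofFn] at hv
    obtain ⟨i, rfl⟩ := hv
    exact mem_BL.1 (h2 f hf i)
  · intro v hv
    obtain ⟨f, g1, ⟨i, g2⟩, f', g3, g4⟩ := h3 v (mem_BL.2 hv)
    refine ⟨List.ofFn f, List.length_ofFn, ?_, ?_, List.ofFn f', List.mem_map.2 ⟨f', g3, rfl⟩, g4⟩
    · intro u hu
      rw [List.mem_ofFn] at hu
      obtain ⟨i, rfl⟩ := hu
      exact mem_BL.1 (g1 i)
    · rw [List.mem_ofFn]
      exact ⟨i, g2⟩

namespace Ctx

variable {c : Ctx}

/-- **Completeness.** -/
theorem or_complete (x : List Bool) (s a m t : ℕ) (hm : m = c.p.eval x.length + 1)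
    (htt : t = c.t.eval (c.N.eval x.length)) (ht : 1 ≤ t) (ha : 1 ≤ a) (hN : 2 ^ (s + 1) ≤ a ^ t)
    (hcode : ∀ S : List (List Bool), S.length = t → (∀ v ∈ S, v.length ≤ m) → (c.code x S).length ≤ s)
    (hno : ∀ w, ver c.V0 c.p x w = false) :
    ∃ τ : Crt2, c.chk2 x τ = true ∧ sz τ ≤ ((m + 1) * (a * (m + 1)) * (t * (4 * m + 2) + 1 + 1) + 1) +
      ((2 * ((m + 1) * (a * (m + 1)) * t + 1)) * (2 * (t * (4 * m + 2) + 1) + 1 + 1) + 1) + 1 := by
  classical
  have hlev : ∀ k, ∃ E : List (List (List Bool)), E.length ≤ a * (m + 1) ∧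
      (∀ S ∈ E, S.length = t ∧ ∀ v ∈ S, v.length ≤ m) ∧
      (k ≤ m → (∀ S ∈ E, ∀ v ∈ S, v.length = k) ∧
        ∀ v : List Bool, v.length = k → ∃ S : List (List Bool), S.length = t ∧ (∀ u ∈ S, u.length = k) ∧ v ∈ S ∧
        ∃ S' ∈ E, c.code x S = c.code x S') := by
    intro k
    by_cases hk : k ≤ m
    · obtain ⟨E, h1, h2, h3⟩ := cover_level (c.code x) k t s a ht ha hN (fun S h1 h2 => hcode S h1
        (fun v hv => by rw [h2 v hv]; exact hk))
      exact ⟨E, h1.trans (Nat.mul_le_mul_left _ (by omega)), fun S hS => ⟨(h2 S hS).1, fun v hv => by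
        rw [(h2 S hS).2 v hv]; exact hk⟩, fun _ => ⟨fun S hS => (h2 S hS).2, h3⟩⟩
    · exact ⟨[], Nat.zero_le _, by simp, fun h => absurd h hk⟩
  choose Ek hE1 hE2 hE3 using hlev
  obtain ⟨E, hE⟩ : ∃ E, E = (List.range (m + 1)).flatMap Ek := ⟨_, rfl⟩
  have hElen : E.length ≤ (m + 1) * (a * (m + 1)) := by
    rw [hE, List.length_flatMap]
    have h1 := List.sum_le_card_nsmul ((List.range (m + 1)).map (fun k => (Ek k).length)) (a * (m + 1)) (by
      intro n hn
      obtain ⟨k, _, rfl⟩ := List.mem_map.1 hn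
      exact hE1 k)
    simpa using h1
  have hEall : ∀ S ∈ E, S.length = t ∧ ∀ v ∈ S, v.length ≤ m := by
    intro S hS
    rw [hE, List.mem_flatMap] at hS
    obtain ⟨k, _, hk⟩ := hS
    exact hE2 k S hk
  have hpr : ∀ v : List Bool, ∃ e : List (List Bool) × List (List Bool), (e.1.length ≤ t ∧ e.2.length ≤ t ∧
      (∀ u ∈ e.1, u.length ≤ m) ∧ (∀ u ∈ e.2, u.length ≤ m)) ∧ (v.length ≤ m → v ∈ e.1 ∧ e.2 ∈ E ∧
        c.valid x e.1 e.2 v.length = true) := by
    intro v
    by_cases hv : v.length ≤ m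
    · obtain ⟨S, h1, h2, h3, S', h4, h5⟩ := (hE3 v.length hv).2 v rfl
      have h6 := hE2 v.length S' h4
      refine ⟨(S, S'), ⟨h1.le, h6.1.le, fun u hu => by rw [h2 u hu]; exact hv, h6.2⟩, fun _ => ⟨h3, ?_, ?_⟩⟩
      · rw [hE, List.mem_flatMap]
        exact ⟨v.length, List.mem_range.2 (by omega), h4⟩
      · unfold valid
        simp only [Bool.and_eq_true, decide_eq_true_eq, List.all_eq_true, List.mem_append]
        refine ⟨by rw [h1, htt], by rw [h6.1, htt], ?_, h5⟩
        rintro u (hu | hu)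
        · exact h2 u hu
        · exact (hE3 v.length hv).1 S' h4 u hu
    · exact ⟨([], []), ⟨Nat.zero_le _, Nat.zero_le _, by simp, by simp⟩, fun h => absurd h hv⟩
  choose pr hpr1 hpr2 using hpr
  obtain ⟨U, hU⟩ : ∃ U : List (List Bool), U = [] :: E.flatten := ⟨_, rfl⟩
  obtain ⟨C, hC⟩ : ∃ C, C = U.flatMap (fun u => [pr (u ++ [false]), pr (u ++ [true])]) := ⟨_, rfl⟩
  have hUlen : U.length ≤ (m + 1) * (a * (m + 1)) * t + 1 := by
    rw [hU, List.length_cons, List.length_flatten]
    have h1 := List.sum_le_card_nsmul (E.map List.length) t (by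
      intro n hn
      obtain ⟨S, hS, rfl⟩ := List.mem_map.1 hn
      exact (hEall S hS).1.le)
    rw [List.length_map, smul_eq_mul] at h1
    have h2 := Nat.mul_le_mul_right t hElen
    omega
  have hClen : C.length ≤ 2 * ((m + 1) * (a * (m + 1)) * t + 1) := by
    have h1 : C.length = 2 * U.length := by
      rw [hC, List.length_flatMap]
      simp [Nat.mul_comm]
    omega
  have hUm : ∀ u ∈ U, u.length ≤ m := by
    intro u hu
    rw [hU, List.mem_cons] at hu
    rcases hu with rfl | hu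
    · simp
    · obtain ⟨S, hS, hu⟩ := List.mem_flatten.1 hu
      exact (hEall S hS).2 u hu
  have hjust : ∀ u ∈ U, c.just x (E, C) u = true := by
    intro u hu
    unfold just
    split_ifs with h1
    · rw [List.all_eq_true]
      intro j _
      rw [hno]; rfl
    · have hcov : ∀ bb : Bool, c.covd x (E, C) (u ++ [bb]) = true := by
        intro bb
        have hl : (u ++ [bb]).length ≤ m := by
          rw [List.length_append, List.length_singleton, hm]
          omega
        obtain ⟨g1, g2, g3⟩ := hpr2 (u ++ [bb]) hl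
        unfold covd
        rw [List.any_eq_true]
        refine ⟨pr (u ++ [bb]), ?_, ?_⟩
        · rw [hC, List.mem_flatMap]
          refine ⟨u, hu, ?_⟩
          cases bb <;> simp
        · rw [Bool.and_eq_true, Bool.and_eq_true, decide_eq_true_eq, decide_eq_true_eq]
          exact ⟨g1, g2, g3⟩
      rw [hcov false, hcov true]; rfl
  refine ⟨(E, C), ?_, ?_⟩
  · unfold chk2
    rw [Bool.and_eq_true, List.all_eq_true]
    refine ⟨hjust [] (by rw [hU]; exact List.mem_cons_self), ?_⟩
    intro S hS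
    rw [List.all_eq_true]
    intro v hv
    refine hjust v ?_
    rw [hU]
    exact List.mem_cons_of_mem _ (List.mem_flatten.2 ⟨S, hS, hv⟩)
  · rw [sz_pair]
    have h1 := sz_le_length_mul E (t * (4 * m + 2) + 1) (fun S hS =>
      sz_strings_le S t m (hEall S hS).1.le (hEall S hS).2)
    have h2 := sz_le_length_mul C (2 * (t * (4 * m + 2) + 1) + 1) (by
      intro e he
      rw [hC, List.mem_flatMap] at he
      obtain ⟨u, _, he⟩ := he
      have h3 : ∃ v, e = pr v := by
        simp only [List.mem_cons, List.not_mem_nil, or_false] at he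
        rcases he with h | h
        · exact ⟨_, h⟩
        · exact ⟨_, h⟩
      obtain ⟨v, rfl⟩ := h3
      obtain ⟨g1, g2, g3, g4⟩ := hpr1 v
      have g5 := sz_strings_le (pr v).1 t m g1 g3
      have g6 := sz_strings_le (pr v).2 t m g2 g4
      have g7 : sz (pr v) = sz (pr v).1 + sz (pr v).2 + 1 := by
        obtain ⟨e1, e2⟩ := pr v
        rw [sz_pair]
      omega)
    have h3 := Nat.mul_le_mul_right (t * (4 * m + 2) + 1 + 1) hElen
    have h4 := Nat.mul_le_mul_right (2 * (t * (4 * m + 2) + 1) + 1 + 1) hClen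
    omega

end Ctx

end Pool.Agent.W2helper58.OD
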