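import Pool.Agent.W2helper58.OD.OrCompl
import Pool.Agent.W2helper58.OD.Num

/-!
# Compression of the OR of instances of an NP-hard language implies `NP = coNP`
-/

set_option autoImplicit false

namespace Pool.Agent.W2helper58.OD

open Pool.Agent.NPC Pool.Agent.H579R2.Spt

theorem exists_ctx {b : Bool} {L : Set (List Bool)} {t : Polynomial ℕ} {s : ℕ → ℕ} (hL : NPHard L)
    (hC : Compresses b L t s) (V0 : List Bool → List Bool) (hV0 : PolyTime V0) (p : Polynomial ℕ) :
    ∃ c : Ctx, c.b = b ∧ c.V0 = V0 ∧ c.p = p ∧ c.t = t ∧ c.Good L ∧ PolyTime c.g ∧ PolyTime c.F ∧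
      ∀ (x : List Bool) (S : List (List Bool)), S.length = c.t.eval (c.N.eval x.length) →
        (∀ v ∈ S, v.length ≤ c.p.eval x.length + 1) → (c.code x S).length ≤ s (c.N.eval x.length) := by
  obtain ⟨F, T, hF, hFT⟩ := hC
  obtain ⟨g, hg, hgL⟩ := hL _ (lam_inNP b hV0 p)
  have hg' : Poly g := PIso.poly_iff.2 hg
  have hgb : Poly (fun a : List Bool × List Bool => g (bits a)) := hg'.comp bits_poly
  obtain ⟨r, hr⟩ := hgb.sz_le
  obtain ⟨N, hN⟩ : ∃ N : Polynomial ℕ, ∀ n, N.eval n = r.eval (4 * n + 4 * p.eval n + 7) := by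
    refine ⟨r.comp (Polynomial.C 4 * Polynomial.X + Polynomial.C 4 * p + Polynomial.C 7), fun n => ?_⟩
    simp [Polynomial.eval_comp]
  have hlen : ∀ x v : List Bool, v.length ≤ p.eval x.length + 1 → (g (bits (x, v))).length ≤ N.eval x.length := by
    intro x v hv
    have h1 : sz (g (bits (x, v))) ≤ r.eval (sz (x, v)) := hr (x, v)
    have h2 := length_lt_sz (g (bits (x, v)))
    have h3 := sz_listBool_le x
    have h4 := sz_listBool_le v
    have h5 : r.eval (sz (x, v)) ≤ N.eval x.length := by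
      rw [hN]
      refine eval_mono r ?_
      rw [sz_pair]
      omega
    omega
  refine ⟨⟨b, V0, p, g, F, N, t⟩, rfl, rfl, rfl, rfl, ⟨?_, hlen, ?_⟩, hg, hF, ?_⟩
  · intro a
    rw [← hgL, bits_mem_lang]
  · intro n l l' h1 h2 h3 h4 h5
    have h5' : F (bits (List.replicate n true, l)) = F (bits (List.replicate n true, l')) := h5
    rw [← (hFT n l h1 h3).2, ← (hFT n l' h2 h4).2, h5']
  · intro x S h2 h3
    exact (hFT (N.eval x.length) (S.map (fun v => g (bits (x, v)))) (by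
      rw [List.length_map]; exact h2) (by
      intro y hy
      obtain ⟨v, hv, rfl⟩ := List.mem_map.1 hy
      exact hlen x v (h3 v hv))).1

/-- the class NP is closed under complements -/
def NPEqCoNP : Prop := ∀ K : Set (List Bool), InNP K ↔ InCoNP K

theorem npEqCoNP_of {h : ∀ K : Set (List Bool), InNP K → InCoNP K} : NPEqCoNP := by
  intro K
  refine ⟨h K, fun hK => ?_⟩
  have h1 : InNP Kᶜᶜ := h _ hK
  rwa [compl_compl] at h1

/-- **Main theorem.** -/
theorem npEqCoNP_of_compresses {L : Set (List Bool)} {t : Polynomial ℕ} {s : ℕ → ℕ} (hL : NPHard L)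
    (hC : Compresses false L t s) (A : Polynomial ℕ) (ht : ∀ n, 1 ≤ t.eval n) (hA : ∀ n, 1 ≤ A.eval n)
    (hN : ∀ n, 2 ^ (s n + 1) ≤ A.eval n ^ t.eval n) : NPEqCoNP := by
  refine npEqCoNP_of (h := ?_)
  rintro K ⟨V0, p, hV0, hK⟩
  have hK2 : ∀ x, x ∈ K ↔ ∃ w, ver V0 p x w = true := by
    intro x
    rw [hK x]
    exact exists_congr fun w => ver_iff.symm
  obtain ⟨c, e0, e1, e2, e3, hgood, hg, hF, hcode⟩ := exists_ctx hL hC V0 hV0 p
  obtain ⟨V, hV⟩ : ∃ V : List Bool → Bool, V = fun y => ((unbits Crt2 (unpair y).2).map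
    (fun τ => c.chk2 (unpair y).1 τ)).getD false := ⟨_, rfl⟩
  have hVp : Poly V := by
    rw [hV]
    have d1 : Poly (fun y : List Bool => (unpair y).1) := NPC.Poly.fst poly_unpair
    have d2 : Poly (fun y : List Bool => (unpair y).2) := NPC.Poly.snd poly_unpair
    refine NPC.Poly.optGetD (NPC.Poly.optMap (o := fun y => unbits Crt2 (unpair y).2)
      (f := fun y τ => c.chk2 (unpair y).1 τ) (poly_unbits.comp d2) ?_) (NPC.Poly.const _)
    exact c.chk2_poly (by rw [e1]; exact hV0) hg hF (d1.comp (NPC.Poly.fst NPC.Poly.id))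
      (NPC.Poly.snd NPC.Poly.id)
  have hVx : ∀ x w, V (pairBits x w) = ((unbits Crt2 w).map (fun τ => c.chk2 x τ)).getD false := by
    intro x w
    rw [hV]
    simp only [unpair_pairBits]
  obtain ⟨q, hq⟩ : ∃ q : Polynomial ℕ, ∀ n, q.eval n =
      (((p.eval n + 1) + 1) * ((A.comp c.N).eval n * ((p.eval n + 1) + 1)) *
        ((c.t.comp c.N).eval n * (4 * (p.eval n + 1) + 2) + 1 + 1) + 1) +
      ((2 * (((p.eval n + 1) + 1) * ((A.comp c.N).eval n * ((p.eval n + 1) + 1)) * (c.t.comp c.N).eval n + 1)) *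
        (2 * ((c.t.comp c.N).eval n * (4 * (p.eval n + 1) + 2) + 1) + 1 + 1) + 1) + 1 := by
    refine ⟨(((p + 1) + 1) * ((A.comp c.N) * ((p + 1) + 1)) *
        ((c.t.comp c.N) * (Polynomial.C 4 * (p + 1) + 2) + 1 + 1) + 1) +
      ((2 * (((p + 1) + 1) * ((A.comp c.N) * ((p + 1) + 1)) * (c.t.comp c.N) + 1)) *
        (2 * ((c.t.comp c.N) * (Polynomial.C 4 * (p + 1) + 2) + 1) + 1 + 1) + 1) + 1, fun n => ?_⟩
    simp
  refine ⟨fun y => [V y], q, polyTime_of_poly hVp, fun x => ⟨?_, ?_⟩⟩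
  · intro hx
    have hno : ∀ w, ver c.V0 c.p x w = false := by
      intro w
      rw [e1, e2]
      by_contra h
      exact hx ((hK2 x).2 ⟨w, by simpa using h⟩)
    obtain ⟨τ, h1, h2⟩ := Ctx.or_complete (c := c) x (s (c.N.eval x.length)) (A.eval (c.N.eval x.length))
      (c.p.eval x.length + 1) (c.t.eval (c.N.eval x.length)) rfl rfl (by rw [e3]; exact ht _) (hA _)
      (by rw [e3]; exact hN _) (hcode x) hno
    refine ⟨bits τ, ?_, ?_⟩
    · rw [bits_length, hq]
      rw [e2] at h2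
      simpa [Polynomial.eval_comp] using h2
    · change [V (pairBits x (bits τ))] = [true]
      rw [hVx]
      simp only [unbits_bits, Option.map_some, Option.getD_some, List.cons.injEq, and_true]
      exact h1
  · rintro ⟨w, _, hw⟩ hxK
    have hw : [V (pairBits x w)] = [true] := hw
    rw [hVx] at hw
    simp only [List.cons.injEq, and_true] at hw
    cases hu : unbits Crt2 w with
    | none => rw [hu] at hw; simp at hw
    | some τ =>
      rw [hu] at hw
      simp only [Option.map_some, Option.getD_some] at hw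
      obtain ⟨w', hw'⟩ := (hK2 x).1 hxK
      have h3 := hgood.or_sound (by rw [e0]) hw w'
      rw [e1, e2, hw'] at h3
      exact absurd h3 (by simp)

theorem two_pow_le_of_log (t s c n : ℕ) (ht : 1 ≤ t) (hs : s ≤ c * (t * Nat.log 2 (n + 2))) :
    2 ^ (s + 1) ≤ ((n + 2) ^ (c + 1)) ^ t := by
  have h2 : 2 ^ Nat.log 2 (n + 2) ≤ n + 2 := Nat.pow_log_le_self 2 (by omega)
  have h4 : 1 ≤ Nat.log 2 (n + 2) := Nat.log_pos (by norm_num) (by omega)
  have h5 : s + 1 ≤ Nat.log 2 (n + 2) * ((c + 1) * t) := by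
    have h6 : 1 ≤ t * Nat.log 2 (n + 2) := Nat.mul_pos ht h4
    calc s + 1 ≤ c * (t * Nat.log 2 (n + 2)) + t * Nat.log 2 (n + 2) := by omega
      _ = _ := by ring
  calc 2 ^ (s + 1) ≤ 2 ^ (Nat.log 2 (n + 2) * ((c + 1) * t)) := Nat.pow_le_pow_right (by norm_num) h5
    _ = (2 ^ Nat.log 2 (n + 2)) ^ ((c + 1) * t) := by rw [← pow_mul]
    _ ≤ (n + 2) ^ ((c + 1) * t) := Nat.pow_le_pow_left h2 _
    _ = _ := by rw [← pow_mul]

/-- compression to `c * t * log₂ n` bits -/
theorem npEqCoNP_of_log {L : Set (List Bool)} {t : Polynomial ℕ} {s : ℕ → ℕ} (c : ℕ) (hL : NPHard L)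
    (ht : ∀ n, 1 ≤ t.eval n) (hs : ∀ n, s n ≤ c * (t.eval n * Nat.log 2 (n + 2)))
    (hC : Compresses false L t s) : NPEqCoNP := by
  refine npEqCoNP_of_compresses hL hC ((Polynomial.X + 2) ^ (c + 1)) ht (fun n => ?_) fun n => ?_
  · simp only [Polynomial.eval_pow, Polynomial.eval_add, Polynomial.eval_X, Polynomial.eval_ofNat]
    exact Nat.one_le_pow _ _ (by omega)
  · simp only [Polynomial.eval_pow, Polynomial.eval_add, Polynomial.eval_X, Polynomial.eval_ofNat]
    exact two_pow_le_of_log _ _ c n (ht n) (hs n)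

/-- distillation -/
theorem npEqCoNP_of_distillation {R : Set (List Bool)} (hRh : NPHard R) {D : List (List Bool) → List Bool}
    (hD : ∃ F : List Bool → List Bool, PolyTime F ∧ ∀ l, F (bits l) = D l) {q : Polynomial ℕ}
    (hq : ∀ (n : ℕ) (l : List (List Bool)), l ≠ [] → (∀ x ∈ l, x.length ≤ n) → (D l).length ≤ q.eval n)
    (hR : ∀ l ≠ [], (D l ∈ R ↔ ∃ x ∈ l, x ∈ R)) : NPEqCoNP := by
  refine npEqCoNP_of_log (t := q + 2) 1 hRh (fun n => ?_) (fun n => ?_)
    (compresses_of_distillation (b := false) hD hq hR)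
  · simp
  · have h1 : (q + 2 : Polynomial ℕ).eval n = q.eval n + 2 := by simp
    rw [h1]
    have h2 : 1 ≤ Nat.log 2 (n + 2) := Nat.log_pos (by norm_num) (by omega)
    nlinarith

end Pool.Agent.W2helper58.OD
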