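import Pool.Agent.W2helper58.OD.Sound
import Pool.Agent.W2helper58.OD.Cover

/-!
# Certificates for the absence of certificates, for the connective OR
-/

set_option autoImplicit false

namespace Pool.Agent.W2helper58.OD

open Pool.Agent.NPC Pool.Agent.H579R2.Spt

theorem memL_poly {α : Type} [TEnc α] {f : α → List (List Bool)} {l : α → List (List (List Bool))} (hf : Poly f)
    (hl : Poly l) : Poly (fun a => decide (f a ∈ l a)) :=
  (NPC.Poly.decide_mem hf hl).congr fun a => by
    rw [decide_eq_decide]

/-- the data of a proof: tuples of nodes, and pairs of tuples with the same code -/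
abbrev Crt2 : Type := List (List (List Bool)) × List (List (List Bool) × List (List Bool))

namespace Ctx

/-- `v` belongs to a tuple with the same code as one of the tuples of the list -/
def covd (c : Ctx) (x : List Bool) (τ : Crt2) (v : List Bool) : Bool :=
  τ.2.any (fun e => decide (v ∈ e.1) && (decide (e.2 ∈ τ.1) && c.valid x e.1 e.2 v.length))

/-- `v` is a leaf without certificate, or both successors of `v` are covered -/
def just (c : Ctx) (x : List Bool) (τ : Crt2) (v : List Bool) : Bool :=
  if c.p.eval x.length + 1 ≤ v.length then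
    (List.range (v.length + 1)).all (fun j => !ver c.V0 c.p x (v.take j)) else
    c.covd x τ (v ++ [false]) && c.covd x τ (v ++ [true])

/-- the checker -/
def chk2 (c : Ctx) (x : List Bool) (τ : Crt2) : Bool :=
  c.just x τ [] && τ.1.all (fun S => S.all (fun v => c.just x τ v))

theorem covd_poly (c : Ctx) (hg : PolyTime c.g) (hF : PolyTime c.F) {α : Type} [TEnc α]
    {x : α → List Bool} {τ : α → Crt2} {v : α → List Bool} (hx : Poly x) (hτ : Poly τ) (hv : Poly v) :
    Poly (fun a => c.covd (x a) (τ a) (v a)) := by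
  unfold covd
  refine NPC.Poly.any (l := fun a => (τ a).2) (p := fun a e => decide (v a ∈ e.1) &&
    (decide (e.2 ∈ (τ a).1) && c.valid (x a) e.1 e.2 (v a).length)) (NPC.Poly.snd hτ) ?_
  have a1 : Poly (fun q : α × (List (List Bool) × List (List Bool)) => x q.1) := hx.comp (NPC.Poly.fst NPC.Poly.id)
  have a2 : Poly (fun q : α × (List (List Bool) × List (List Bool)) => v q.1) := hv.comp (NPC.Poly.fst NPC.Poly.id)
  have a3 : Poly (fun q : α × (List (List Bool) × List (List Bool)) => q.2.1) :=
    NPC.Poly.fst (NPC.Poly.snd NPC.Poly.id)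
  have a4 : Poly (fun q : α × (List (List Bool) × List (List Bool)) => q.2.2) :=
    NPC.Poly.snd (NPC.Poly.snd NPC.Poly.id)
  have a5 : Poly (fun q : α × (List (List Bool) × List (List Bool)) => (τ q.1).1) :=
    (NPC.Poly.fst hτ).comp (NPC.Poly.fst NPC.Poly.id)
  exact NPC.Poly.and (mem_poly a2 a3) (NPC.Poly.and (memL_poly a4 a5)
    (c.valid_poly hg hF a1 a3 a4 (NPC.Poly.length a2)))

theorem just_poly (c : Ctx) (hV : PolyTime c.V0) (hg : PolyTime c.g) (hF : PolyTime c.F) {α : Type} [TEnc α]
    {x : α → List Bool} {τ : α → Crt2} {v : α → List Bool} (hx : Poly x) (hτ : Poly τ) (hv : Poly v) :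
    Poly (fun a => c.just (x a) (τ a) (v a)) := by
  unfold just
  have b6 : Poly (fun a => c.p.eval (x a).length + 1) :=
    (((UPoly.length hx).eval c.p).add (UPoly.const 1)).toPoly
  refine NPC.Poly.ite (NPC.Poly.decide_le b6 (NPC.Poly.length hv)) ?_ ?_
  · have b7 : Poly (fun a => List.range ((v a).length + 1)) :=
      ((UPoly.length hv).add (UPoly.const 1)).range
    refine NPC.Poly.all (l := fun a => List.range ((v a).length + 1))
      (p := fun a j => !ver c.V0 c.p (x a) ((v a).take j)) b7 ?_
    refine NPC.Poly.not ((ver_poly hV c.p).comp (NPC.Poly.pair (hx.comp (NPC.Poly.fst NPC.Poly.id)) ?_))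
    exact take_poly' (hv.comp (NPC.Poly.fst NPC.Poly.id)) (NPC.Poly.snd NPC.Poly.id)
  · exact NPC.Poly.and (c.covd_poly hg hF hx hτ (NPC.Poly.append hv (NPC.Poly.const _)))
      (c.covd_poly hg hF hx hτ (NPC.Poly.append hv (NPC.Poly.const _)))

theorem chk2_poly (c : Ctx) (hV : PolyTime c.V0) (hg : PolyTime c.g) (hF : PolyTime c.F) {α : Type} [TEnc α]
    {x : α → List Bool} {τ : α → Crt2} (hx : Poly x) (hτ : Poly τ) : Poly (fun a => c.chk2 (x a) (τ a)) := by
  unfold chk2
  refine NPC.Poly.and (c.just_poly hV hg hF hx hτ (NPC.Poly.const _)) ?_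
  refine NPC.Poly.all (l := fun a => (τ a).1) (p := fun a S => S.all (fun v => c.just (x a) (τ a) v))
    (NPC.Poly.fst hτ) ?_
  refine NPC.Poly.all (l := fun q : α × List (List Bool) => q.2) (p := fun q v => c.just (x q.1) (τ q.1) v)
    (NPC.Poly.snd NPC.Poly.id) ?_
  have d0 : Poly (fun q : (α × List (List Bool)) × List Bool => q.1.1) := NPC.Poly.fst (NPC.Poly.fst NPC.Poly.id)
  exact c.just_poly hV hg hF (hx.comp d0) (hτ.comp d0) (NPC.Poly.snd NPC.Poly.id)

variable {c : Ctx} {L : Set (List Bool)}

/-- no certificate below the nodes of a tuple with the same code -/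
theorem Good.or_valid (h : c.Good L) (hb : c.b = false) {x : List Bool} {S S' : List (List Bool)} {k : ℕ}
    (hk : k ≤ c.p.eval x.length + 1) (hv : c.valid x S S' k = true)
    (hS : ∀ v ∈ S', ¬ Lam c.b (ver c.V0 c.p) (x, v)) : ∀ v ∈ S, ¬ Lam c.b (ver c.V0 c.p) (x, v) := by
  unfold valid at hv
  simp only [Bool.and_eq_true, decide_eq_true_eq, List.all_eq_true, List.mem_append] at hv
  obtain ⟨h1, h2, h3, h4⟩ := hv
  have h5 := h.comp (c.N.eval x.length) (S.map (fun v => c.g (bits (x, v)))) (S'.map (fun v => c.g (bits (x, v))))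
    (by rw [List.length_map]; exact h1) (by rw [List.length_map]; exact h2)
    (by
      intro y hy
      obtain ⟨v, hv, rfl⟩ := List.mem_map.1 hy
      exact h.len x v (by rw [h3 v (Or.inl hv)]; exact hk))
    (by
      intro y hy
      obtain ⟨v, hv, rfl⟩ := List.mem_map.1 hy
      exact h.len x v (by rw [h3 v (Or.inr hv)]; exact hk)) h4
  rw [hb] at h5
  unfold conn at h5
  simp only at h5
  intro v hv hL
  obtain ⟨y, hy, hyL⟩ := h5.1 ⟨_, List.mem_map.2 ⟨v, hv, rfl⟩, (h.red (x, v)).1 hL⟩
  obtain ⟨v', hv', rfl⟩ := List.mem_map.1 hy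
  exact hS v' hv' ((h.red (x, v')).2 hyL)

theorem Good.or_just (h : c.Good L) (hb : c.b = false) {x : List Bool} {τ : Crt2} {v : List Bool}
    (hE : ∀ S ∈ τ.1, (∀ u ∈ S, u.length = v.length + 1) → ∀ u ∈ S, ¬ Lam c.b (ver c.V0 c.p) (x, u))
    (hj : c.just x τ v = true) : ¬ Lam c.b (ver c.V0 c.p) (x, v) := by
  rintro ⟨w, hw, hwb⟩
  rw [hb] at hwb
  simp only [Bool.false_xor, decide_eq_true_eq] at hwb
  simp only at hw
  unfold just at hj
  have hwl : w.length ≤ c.p.eval x.length := (ver_iff.1 hw).1
  split_ifs at hj with h1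
  · rw [List.all_eq_true] at hj
    have h2 := hj w.length (List.mem_range.2 (by omega))
    rw [hwb, pfx_take w _ (by omega), hw] at h2
    simp at h2
  · rw [Bool.and_eq_true] at hj
    have key : ∀ bb : Bool, c.covd x τ (v ++ [bb]) = true → pfx w (v.length + 1) ≠ v ++ [bb] := by
      intro bb hc heq
      unfold covd at hc
      rw [List.any_eq_true] at hc
      obtain ⟨e, _, he⟩ := hc
      rw [Bool.and_eq_true, Bool.and_eq_true, decide_eq_true_eq, decide_eq_true_eq] at he
      obtain ⟨e1, e2, e3⟩ := he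
      have hl : (v ++ [bb]).length = v.length + 1 := by simp
      rw [hl] at e3
      have h4 : ∀ u ∈ e.2, u.length = v.length + 1 := by
        unfold valid at e3
        simp only [Bool.and_eq_true, decide_eq_true_eq, List.all_eq_true, List.mem_append] at e3
        exact fun u hu => e3.2.2.1 u (Or.inr hu)
      have h5 := h.or_valid hb (by omega) e3 (hE e.2 e2 h4) _ e1
      apply h5
      refine ⟨w, hw, ?_⟩
      rw [hb]
      simp only [Bool.false_xor, decide_eq_true_eq]
      rw [hl, heq]
    rcases pfx_succ w v.length with h3 | h3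
    · rw [← hwb] at h3
      exact key false hj.1 h3
    · rw [← hwb] at h3
      exact key true hj.2 h3

theorem Good.or_sound (h : c.Good L) (hb : c.b = false) {x : List Bool} {τ : Crt2} (hτ : c.chk2 x τ = true) :
    ∀ w, ver c.V0 c.p x w = false := by
  unfold chk2 at hτ
  rw [Bool.and_eq_true, List.all_eq_true] at hτ
  obtain ⟨h0, h1⟩ := hτ
  have key : ∀ d k, c.p.eval x.length + 1 ≤ k + d → ∀ S ∈ τ.1, (∀ u ∈ S, u.length = k) →
      ∀ u ∈ S, ¬ Lam c.b (ver c.V0 c.p) (x, u) := by
    intro d
    induction d with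
    | zero =>
      intro k hk S hS hl u hu
      have h2 := h1 S hS
      rw [List.all_eq_true] at h2
      have h3 := h2 u hu
      rintro ⟨w, hw, hwb⟩
      rw [hb] at hwb
      simp only [Bool.false_xor, decide_eq_true_eq] at hwb
      simp only at hw
      have hwl : w.length ≤ c.p.eval x.length := (ver_iff.1 hw).1
      unfold just at h3
      rw [if_pos (by rw [hl u hu]; omega), List.all_eq_true] at h3
      have h4 := h3 w.length (List.mem_range.2 (by rw [hl u hu]; omega))
      rw [hwb, pfx_take w _ (by rw [hl u hu]; omega), hw] at h4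
      simp at h4
    | succ d ih =>
      intro k hk S hS hl u hu
      have h2 := h1 S hS
      rw [List.all_eq_true] at h2
      refine h.or_just hb ?_ (h2 u hu)
      rw [hl u hu]
      exact ih (k + 1) (by omega)
  have hroot := h.or_just hb (x := x) (τ := τ) (v := []) (key (c.p.eval x.length + 1) _ (by simp)) h0
  intro w
  by_contra hw
  rw [Bool.not_eq_false] at hw
  apply hroot
  refine ⟨w, hw, ?_⟩
  rw [hb]
  simp [pfx_zero]

end Ctx

end Pool.Agent.W2helper58.OD
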