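import Pool.Agent.H579R2.Spt.VV3

/-!
# The tree of prefixes of the certificates
-/

set_option autoImplicit false

namespace Pool.Agent.W2helper58.OD

open Pool.Agent.NPC Pool.Agent.H579R2.Spt

/-- the first `k` bits of the infinite sequence `w 1 0 0 0 ...` -/
def pfx (w : List Bool) (k : ℕ) : List Bool := (List.range k).map (fun i => (w ++ [true]).getD i false)

@[simp] theorem pfx_length (w : List Bool) (k : ℕ) : (pfx w k).length = k := by simp [pfx]

theorem pfx_zero (w : List Bool) : pfx w 0 = [] := rfl

theorem pfx_succ (w : List Bool) (k : ℕ) : pfx w (k + 1) = pfx w k ++ [false] ∨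
    pfx w (k + 1) = pfx w k ++ [true] := by
  unfold pfx
  rw [List.range_succ, List.map_append, List.map_singleton]
  cases (w ++ [true]).getD k false
  · exact Or.inl rfl
  · exact Or.inr rfl

theorem pfx_take (w : List Bool) (k : ℕ) (h : w.length ≤ k) : (pfx w k).take w.length = w := by
  apply List.ext_getElem
  · simp [h]
  · intro i h1 h2
    simp only [pfx, List.getElem_take, List.getElem_map, List.getElem_range]
    rw [List.getD_eq_getElem?_getD, List.getElem?_append_left h2, List.getElem?_eq_getElem h2]
    rfl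

theorem pfx_poly {α : Type} [TEnc α] {w v : α → List Bool} (hw : Poly w) (hv : Poly v) :
    Poly (fun a => pfx (w a) (v a).length) := by
  unfold pfx
  refine NPC.Poly.map (l := fun a => List.range (v a).length)
    (F := fun a i => (w a ++ [true]).getD i false) (NPC.Poly.range_length hv) ?_
  exact NPC.Poly.getD (l := fun q : α × ℕ => w q.1 ++ [true]) (n := fun q : α × ℕ => q.2)
    (d := fun _ => false) (NPC.Poly.append (hw.comp (NPC.Poly.fst NPC.Poly.id)) (NPC.Poly.const _))
    (NPC.Poly.snd NPC.Poly.id) (NPC.Poly.const _)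

/-- some certificate `w` for `a.1` has the prefix `a.2` (if `b` is `false`), or has not the prefix
`a.2` (if `b` is `true`) -/
def Lam (b : Bool) (V : List Bool → List Bool → Bool) (a : List Bool × List Bool) : Prop :=
  ∃ w, V a.1 w = true ∧ (b ^^ decide (a.2 = pfx w a.2.length)) = true

theorem lam_inNP (b : Bool) {V0 : List Bool → List Bool} (hV0 : PolyTime V0) (p : Polynomial ℕ) :
    InNPP (Lam b (ver V0 p)) := by
  have e1 : Poly (fun q : (List Bool × List Bool) × List Bool => q.1.1) :=
    NPC.Poly.fst (NPC.Poly.fst NPC.Poly.id)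
  have e2 : Poly (fun q : (List Bool × List Bool) × List Bool => q.1.2) :=
    NPC.Poly.snd (NPC.Poly.fst NPC.Poly.id)
  have e3 : Poly (fun q : (List Bool × List Bool) × List Bool => q.2) := NPC.Poly.snd NPC.Poly.id
  have h1 : Poly (fun q : (List Bool × List Bool) × List Bool =>
      ver V0 p q.1.1 q.2 && (b ^^ decide (q.1.2 = pfx q.2 q.1.2.length))) := by
    refine NPC.Poly.and ((ver_poly hV0 p).comp (NPC.Poly.pair e1 e3)) ?_
    exact NPC.Poly.xor (NPC.Poly.const b) (NPC.Poly.decide_eq e2 (pfx_poly e3 e2))
  refine inNPP_of (R := fun q => ver V0 p q.1.1 q.2 &&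
    (b ^^ decide (q.1.2 = pfx q.2 q.1.2.length))) h1 (Polynomial.C 4 * p + 1) ?_
  rintro ⟨x, u⟩
  constructor
  · rintro ⟨w, hw, hb⟩
    refine ⟨w, ?_, ?_⟩
    · have h2 : w.length ≤ p.eval x.length := (ver_iff.1 hw).1
      have h3 := sz_listBool_le w
      have h4 : p.eval x.length ≤ p.eval (sz (x, u)) := by
        refine eval_mono p ?_
        have := length_lt_sz x
        rw [sz_pair]; omega
      simp only [Polynomial.eval_add, Polynomial.eval_mul, Polynomial.eval_C, Polynomial.eval_one]
      omega
    · simp only at hw hb ⊢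
      rw [hw, hb]; rfl
  · rintro ⟨w, _, hw⟩
    simp only [Bool.and_eq_true] at hw
    exact ⟨w, hw.1, hw.2⟩

end Pool.Agent.W2helper58.OD
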