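import Pool.Agent.W2helper58.OD.Chk

/-!
# Soundness of the checker: nothing refutes a unique certificate
-/

set_option autoImplicit false

namespace Pool.Agent.W2helper58.OD

open Pool.Agent.NPC Pool.Agent.H579R2.Spt

/-- the value of the connective (OR for `false`, AND for `true`) at the truth values of the instances -/
def conn (b : Bool) (L : Set (List Bool)) (l : List (List Bool)) : Prop :=
  match b with
  | false => ∃ y ∈ l, y ∈ L
  | true => ∀ y ∈ l, y ∈ L

namespace Ctx

/-- the properties of the reduction and of the compression which are used -/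
structure Good (c : Ctx) (L : Set (List Bool)) : Prop where
  red : ∀ a : List Bool × List Bool, Lam c.b (ver c.V0 c.p) a ↔ c.g (bits a) ∈ L
  len : ∀ x v : List Bool, v.length ≤ c.p.eval x.length + 1 → (c.g (bits (x, v))).length ≤ c.N.eval x.length
  comp : ∀ (n : ℕ) (l l' : List (List Bool)), l.length = c.t.eval n → l'.length = c.t.eval n →
    (∀ y ∈ l, y.length ≤ n) → (∀ y ∈ l', y.length ≤ n) →
    c.F (bits (List.replicate n true, l)) = c.F (bits (List.replicate n true, l')) →
    (conn c.b L l ↔ conn c.b L l')

variable {c : Ctx} {L : Set (List Bool)}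

theorem Good.node (h : c.Good L) {x w : List Bool} (hw : ver c.V0 c.p x w = true)
    (hu : ∀ w', ver c.V0 c.p x w' = true → w' = w) (v : List Bool) :
    c.g (bits (x, v)) ∈ L ↔ (c.b ^^ decide (v = pfx w v.length)) = true := by
  rw [← h.red]
  constructor
  · rintro ⟨w', h1, h2⟩
    rw [hu w' h1] at h2
    exact h2
  · intro h2
    exact ⟨w, hw, h2⟩

theorem Good.valid_sound (h : c.Good L) {x w : List Bool} (hw : ver c.V0 c.p x w = true)
    (hu : ∀ w', ver c.V0 c.p x w' = true → w' = w) {S S' : List (List Bool)} {k : ℕ}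
    (hk : k ≤ c.p.eval x.length + 1) (hv : c.valid x S S' k = true) : pfx w k ∈ S ↔ pfx w k ∈ S' := by
  unfold valid at hv
  simp only [Bool.and_eq_true, decide_eq_true_eq, List.all_eq_true, List.mem_append] at hv
  obtain ⟨h1, h2, h3, h4⟩ := hv
  have key : ∀ v, v.length = k → (c.g (bits (x, v)) ∈ L ↔ (c.b ^^ decide (v = pfx w k)) = true) := by
    intro v hv
    rw [h.node hw hu v, hv]
  have h5 := h.comp (c.N.eval x.length) (S.map (fun v => c.g (bits (x, v)))) (S'.map (fun v => c.g (bits (x, v))))
    (by rw [List.length_map]; exact h1) (by rw [List.length_map]; exact h2)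
    (by
      intro y hy
      obtain ⟨v, hv, rfl⟩ := List.mem_map.1 hy
      exact h.len x v (by rw [h3 v (Or.inl hv)]; exact hk))
    (by
      intro y hy
      obtain ⟨v, hv, rfl⟩ := List.mem_map.1 hy
      exact h.len x v (by rw [h3 v (Or.inr hv)]; exact hk)) h4
  have g : ∀ (Q : List (List Bool)), (∀ v ∈ Q, v.length = k) →
      (conn c.b L (Q.map (fun v => c.g (bits (x, v)))) ↔ (c.b ^^ decide (pfx w k ∈ Q)) = true) := by
    intro Q hQ
    cases hb : c.b
    · rw [hb] at key
      unfold conn
      simp only [Bool.false_xor, decide_eq_true_eq] at key ⊢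
      constructor
      · rintro ⟨y, hy, hyL⟩
        obtain ⟨v, hv, rfl⟩ := List.mem_map.1 hy
        rw [← (key v (hQ v hv)).1 hyL]
        exact hv
      · intro hp
        exact ⟨_, List.mem_map.2 ⟨_, hp, rfl⟩, (key _ (pfx_length w k)).2 rfl⟩
    · rw [hb] at key
      unfold conn
      simp only [Bool.true_xor, Bool.not_eq_true', decide_eq_false_iff_not] at key ⊢
      constructor
      · intro hall hp
        exact (key _ (pfx_length w k)).1 (hall _ (List.mem_map.2 ⟨_, hp, rfl⟩)) rfl
      · rintro hp y hy
        obtain ⟨v, hv, rfl⟩ := List.mem_map.1 hy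
        refine (key v (hQ v hv)).2 ?_
        rintro rfl
        exact hp hv
  rw [g S (fun v hv => h3 v (Or.inl hv)), g S' (fun v hv => h3 v (Or.inr hv))] at h5
  by_cases e1 : pfx w k ∈ S <;> by_cases e2 : pfx w k ∈ S' <;> simp [e1, e2] at h5 ⊢

theorem Good.sound (h : c.Good L) {x w : List Bool} (hw : ver c.V0 c.p x w = true)
    (hu : ∀ w', ver c.V0 c.p x w' = true → w' = w) (τ : Crt) : c.chk x τ = false := by
  by_contra hne
  rw [Bool.not_eq_false] at hne
  unfold chk at hne
  rw [Bool.and_eq_true, List.all_eq_true, decide_eq_true_eq] at hne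
  obtain ⟨h0, h1⟩ := hne
  have hex : ∀ k, k ≤ c.p.eval x.length + 1 → c.excl x τ.2 (pfx w k) = true → False := by
    intro k hk he
    unfold excl at he
    rw [List.any_eq_true] at he
    obtain ⟨e, _, he2⟩ := he
    rw [Bool.and_eq_true, pfx_length] at he2
    have h3 := h.valid_sound hw hu hk he2.1
    have h4 := he2.2
    by_cases e1 : pfx w k ∈ e.1 <;> by_cases e3 : pfx w k ∈ e.2 <;> simp [e1, e3] at h3 h4
  have key : ∀ k, k ≤ c.p.eval x.length + 1 → pfx w k ∈ τ.1 := by
    intro k
    induction k with
    | zero => intro _; rw [pfx_zero]; exact h0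
    | succ k ih =>
      intro hk
      have h2 := h1 _ (ih (by omega))
      rw [pfx_length, if_neg (by omega), Bool.and_eq_true, Bool.or_eq_true, Bool.or_eq_true, decide_eq_true_eq,
        decide_eq_true_eq] at h2
      rcases pfx_succ w k with h3 | h3
      · rw [← h3] at h2
        exact h2.1.resolve_right (hex _ hk)
      · rw [← h3] at h2
        exact h2.2.resolve_right (hex _ hk)
  have h2 := h1 _ (key _ le_rfl)
  rw [pfx_length, if_pos le_rfl, List.all_eq_true] at h2
  have hwl : w.length ≤ c.p.eval x.length := (ver_iff.1 hw).1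
  have h3 := h2 w.length (List.mem_range.2 (by omega))
  rw [pfx_take w _ (by omega), hw] at h3
  simp at h3

end Ctx

end Pool.Agent.W2helper58.OD
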